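import Pool.Agent.U638.KO.Trans

/-! # Back and forth; the existence of the model completion -/

set_option autoImplicit false

namespace Pool.Agent.U638.KO

open FirstOrder FirstOrder.Language Filter Finset Classical

/-- a partial isomorphism given by two families of points -/
structure PI (k : ℕ) {ι N₁ N₂ : Type} [(L k).Structure N₁] [(L k).Structure N₂] (X : Finset ι)
    (w₁ : ι → N₁) (w₂ : ι → N₂) : Prop where
  eq : ∀ x ∈ X, ∀ y ∈ X, (w₁ x = w₁ y ↔ w₂ x = w₂ y)
  rel : ∀ t : Fin (k + 1) → ι, (∀ j, t j ∈ X) →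
    (R (k := k) (fun j => w₁ (t j)) ↔ R (k := k) (fun j => w₂ (t j)))

theorem PI.symm {k : ℕ} {ι N₁ N₂ : Type} [(L k).Structure N₁] [(L k).Structure N₂] {X : Finset ι}
    {w₁ : ι → N₁} {w₂ : ι → N₂} (h : PI k X w₁ w₂) : PI k X w₂ w₁ :=
  ⟨fun x hx y hy => (h.eq x hx y hy).symm, fun t ht => (h.rel t ht).symm⟩

theorem PI.comap {k : ℕ} {ι κ N₁ N₂ : Type} [(L k).Structure N₁] [(L k).Structure N₂]
    {X : Finset ι} {w₁ : ι → N₁} {w₂ : ι → N₂} (h : PI k X w₁ w₂) {Y : Finset κ} (e : κ → ι)
    (he : ∀ y ∈ Y, e y ∈ X) : PI k Y (fun y => w₁ (e y)) (fun y => w₂ (e y)) :=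
  ⟨fun x hx y hy => h.eq _ (he x hx) _ (he y hy), fun t ht => h.rel (fun j => e (t j))
    fun j => he _ (ht j)⟩

theorem exists_section {ι V : Type} (X : Finset ι) (w : ι → V) :
    ∃ X' ⊆ X, Set.InjOn w X' ∧ X'.image w = X.image w := by
  induction X using Finset.induction_on with
  | empty => exact ⟨∅, by simp, by simp, rfl⟩
  | insert q X _ ih =>
    obtain ⟨X', h1, h2, h3⟩ := ih
    by_cases hq : w q ∈ X.image w
    · exact ⟨X', h1.trans (subset_insert _ _), h2, by rw [image_insert, insert_eq_of_mem hq, h3]⟩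
    · refine ⟨insert q X', insert_subset_insert _ h1, ?_, by rw [image_insert, image_insert, h3]⟩
      rw [← h3] at hq
      intro x hx y hy hxy
      rw [mem_coe, mem_insert] at hx hy
      rcases hx with rfl | hx <;> rcases hy with rfl | hy
      · rfl
      · exact absurd (mem_image.2 ⟨y, hy, hxy.symm⟩) hq
      · exact absurd (mem_image.2 ⟨x, hx, hxy⟩) hq
      · exact h2 hx hy hxy

theorem PI.extend {n k : ℕ} {ι N₁ N₂ : Type} [(L k).Structure N₁]
    [(L k).Structure N₂] (i₁ : IsHyp n k N₁) (i₂ : IsHyp n k N₂)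
    (e₂ : Ext n k (E (k := k) (M := N₂))) {X : Finset ι} {w₁ : ι → N₁} {w₂ : ι → N₂}
    (h : PI k X w₁ w₂) (a : N₁) :
    ∃ b : N₂, PI k (insertNone X) (fun o => o.elim a w₁) (fun o => o.elim b w₂) := by
  by_cases ha : ∃ i ∈ X, w₁ i = a
  · obtain ⟨i, hi, rfl⟩ := ha
    refine ⟨w₂ i, ?_⟩
    have h1 := h.comap (Y := insertNone X) (fun o => o.elim i id) (by
      rintro (_ | y) hy
      · exact hi
      · simpa using hy)
    have h2 : (fun o : Option ι => o.elim (w₁ i) w₁) = fun o => w₁ (o.elim i id) := by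
      funext o; cases o <;> rfl
    have h3 : (fun o : Option ι => o.elim (w₂ i) w₂) = fun o => w₂ (o.elim i id) := by
      funext o; cases o <;> rfl
    rw [h2, h3]
    exact h1
  push Not at ha
  obtain ⟨X', hX', hinj₂, him₂⟩ := exists_section X w₂
  have hinj₁ : Set.InjOn w₁ X' := by
    intro x hx y hy hxy
    exact hinj₂ hx hy ((h.eq x (hX' hx) y (hX' hy)).1 hxy)
  have hfin : ∀ S ⊆ X', S.card = k + 1 →
      (E (k := k) (S.image w₁) ↔ E (k := k) (S.image w₂)) := by
    intro S hS hSk
    obtain ⟨t, ht, rfl⟩ := exists_enum hSk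
    have h1 := h.rel t (fun j => hX' (hS (mem_image_of_mem t (mem_univ j))))
    rw [R_iffE i₁, R_iffE i₂] at h1
    rw [image_image, image_image]
    exact h1
  have haim : ∀ S ⊆ X, a ∉ S.image w₁ := by
    intro S hS h1
    obtain ⟨i, hi, hia⟩ := mem_image.1 h1
    exact ha i (hS hi) hia
  obtain ⟨b, hb, hbE⟩ := e₂ (X'.image w₂)
    (fun S₂ => E (k := k) (insert a ((X'.filter fun i => w₂ i ∈ S₂).image w₁))) (by
      intro K₂ hK₂ hn hc
      by_contra hcon
      push Not at hcon
      set K := X'.filter fun i => w₂ i ∈ K₂ with hKdef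
      have hKim : K.image w₂ = K₂ := image_filter hK₂
      have hKX : K ⊆ X' := filter_subset _ _
      have hKinj₂ : Set.InjOn w₂ K := hinj₂.mono (by exact_mod_cast hKX)
      have hKinj₁ : Set.InjOn w₁ K := hinj₁.mono (by exact_mod_cast hKX)
      have hKcard : K.card = n := by rw [← hn, ← hKim, card_image_of_injOn hKinj₂]
      refine E_fr i₁ (insert a (K.image w₁)) ?_ ?_
      · rw [card_insert_of_notMem (haim K (hKX.trans hX')), card_image_of_injOn hKinj₁, hKcard]
      · intro W hW hWk
        by_cases haW : a ∈ W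
        · have h1 : W.erase a ⊆ K.image w₁ := by
            intro v hv
            rw [mem_erase] at hv
            exact (mem_insert.1 (hW hv.2)).resolve_left hv.1
          have h2 := image_filter h1
          set S := K.filter fun i => w₁ i ∈ W.erase a with hS
          have hSK : S ⊆ K := filter_subset _ _
          have h3 : S.card = k := by
            have h4 := congrArg Finset.card h2
            rw [card_image_of_injOn (hKinj₁.mono (by exact_mod_cast hSK)),
              card_erase_of_mem haW, hWk] at h4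
            simpa using h4
          have h5 := hcon (S.image w₂) (by rw [← hKim]; exact image_subset_image hSK) (by
            rw [card_image_of_injOn (hKinj₂.mono (by exact_mod_cast hSK)), h3])
          rw [filter_image hinj₂ (hSK.trans hKX), h2, insert_erase haW] at h5
          exact h5
        · have h1 : W ⊆ K.image w₁ := by
            intro v hv
            refine (mem_insert.1 (hW hv)).resolve_left ?_
            rintro rfl; exact haW hv
          have h2 := image_filter h1
          set S := K.filter fun i => w₁ i ∈ W with hS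
          have hSK : S ⊆ K := filter_subset _ _
          have h3 : S.card = k + 1 := by
            have h4 := congrArg Finset.card h2
            rw [card_image_of_injOn (hKinj₁.mono (by exact_mod_cast hSK)), hWk] at h4
            exact h4
          rw [← h2, hfin S (hSK.trans hKX) h3]
          apply hc
          · rw [← hKim]; exact image_subset_image hSK
          · rw [card_image_of_injOn (hKinj₂.mono (by exact_mod_cast hSK)), h3])
  refine ⟨b, ?_, ?_⟩
  · have hb' : ∀ y ∈ X, b ≠ w₂ y := by
      intro y hy hby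
      apply hb
      rw [him₂, hby]
      exact mem_image_of_mem _ hy
    rintro (_ | x) hx (_ | y) hy
    · simp
    · have hy' : y ∈ X := by simpa using hy
      exact ⟨fun h1 => absurd h1.symm (ha y hy'), fun h1 => absurd h1 (hb' y hy')⟩
    · have hx' : x ∈ X := by simpa using hx
      exact ⟨fun h1 => absurd h1 (ha x hx'), fun h1 => absurd h1.symm (hb' x hx')⟩
    · exact h.eq x (by simpa using hx) y (by simpa using hy)
  · intro t ht
    by_cases hall : ∀ j, t j ≠ none
    · have h1 : ∀ j, ∃ x, t j = some x := fun j => Option.ne_none_iff_exists'.1 (hall j)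
      choose t' ht' using h1
      have h2 := h.rel t' (fun j => by have := ht j; rw [ht' j] at this; simpa using this)
      simp only [ht']
      exact h2
    · push Not at hall
      obtain ⟨j₀, hj₀⟩ := hall
      set T₀ := (Finset.univ.image t).eraseNone with hT₀
      have hT₀X : T₀ ⊆ X := by
        intro x hx
        rw [hT₀, mem_eraseNone, mem_image] at hx
        obtain ⟨j, -, hj⟩ := hx
        have := ht j
        rw [hj] at this
        simpa using this
      have him : ∀ {V : Type} (c : V) (w : ι → V), Finset.univ.image (fun j => (t j).elim c w) =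
          insert c (T₀.image w) := by
        intro V c w
        ext v
        simp only [mem_image, mem_univ, true_and, mem_insert, hT₀, mem_eraseNone]
        constructor
        · rintro ⟨j, rfl⟩
          rcases hj : t j with _ | x
          · left; rfl
          · right; exact ⟨x, ⟨j, hj⟩, rfl⟩
        · rintro (rfl | ⟨x, ⟨j, hj⟩, rfl⟩)
          · exact ⟨j₀, by rw [hj₀]; rfl⟩
          · exact ⟨j, by rw [hj]; rfl⟩
      rw [R_iffE i₁, R_iffE i₂, him, him]
      set T₁ := X'.filter fun i => w₂ i ∈ T₀.image w₂ with hT₁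
      have hT₁X : T₁ ⊆ X' := filter_subset _ _
      have h2 : T₁.image w₂ = T₀.image w₂ :=
        image_filter (by rw [him₂]; exact image_subset_image hT₀X)
      have h1 : T₁.image w₁ = T₀.image w₁ := by
        ext v
        rw [mem_image, mem_image]
        constructor
        · rintro ⟨i, hi, rfl⟩
          have h3 : w₂ i ∈ T₀.image w₂ := by rw [← h2]; exact mem_image_of_mem _ hi
          obtain ⟨j, hj, hji⟩ := mem_image.1 h3
          exact ⟨j, hj, (h.eq j (hT₀X hj) i (hX' (hT₁X hi))).2 hji⟩
        · rintro ⟨i, hi, rfl⟩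
          have h3 : w₂ i ∈ T₁.image w₂ := by rw [h2]; exact mem_image_of_mem _ hi
          obtain ⟨j, hj, hji⟩ := mem_image.1 h3
          exact ⟨j, hj, (h.eq j (hX' (hT₁X hj)) i (hT₀X hi)).2 hji⟩
      rw [← h1, ← h2]
      have hc₁ : (T₁.image w₁).card = T₁.card :=
        card_image_of_injOn (hinj₁.mono (by exact_mod_cast hT₁X))
      have hc₂ : (T₁.image w₂).card = T₁.card :=
        card_image_of_injOn (hinj₂.mono (by exact_mod_cast hT₁X))
      by_cases hcard : T₁.card = k
      · rw [hbE (T₁.image w₂) (image_subset_image hT₁X) (by rw [hc₂, hcard])]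
        rw [filter_image hinj₂ hT₁X]
      · constructor
        · intro h3
          have h4 := E_card i₁ h3
          rw [card_insert_of_notMem (haim _ (hT₁X.trans hX')), hc₁] at h4
          omega
        · intro h3
          have h4 := E_card i₂ h3
          rw [card_insert_of_notMem (fun h5 => hb (image_subset_image hT₁X h5)), hc₂] at h4
          omega

theorem back_forth {n k : ℕ} {α : Type} {m : ℕ} (φ : (L k).BoundedFormula α m) :
    ∃ s₀ : Finset α, ∀ s, s₀ ⊆ s → ∀ (N₁ N₂ : Type) [(L k).Structure N₁] [(L k).Structure N₂],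
      IsHyp n k N₁ → IsHyp n k N₂ → Ext n k (E (k := k) (M := N₁)) →
      Ext n k (E (k := k) (M := N₂)) →
      ∀ (v₁ : α → N₁) (v₂ : α → N₂) (xs₁ : Fin m → N₁) (xs₂ : Fin m → N₂),
        PI k (s.disjSum Finset.univ) (Sum.elim v₁ xs₁) (Sum.elim v₂ xs₂) →
        (φ.Realize v₁ xs₁ ↔ φ.Realize v₂ xs₂) := by
  have hterm : ∀ {m : ℕ} (t : (L k).Term (α ⊕ Fin m)), ∃ (x : α ⊕ Fin m) (s₀ : Finset α),
      t = Term.var x ∧ ∀ s, s₀ ⊆ s → x ∈ s.disjSum Finset.univ := by
    intro m t
    cases t with
    | var x =>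
      rcases x with a | j
      · exact ⟨Sum.inl a, {a}, rfl, fun s hs => by simpa using hs⟩
      · exact ⟨Sum.inr j, ∅, rfl, fun s hs => by simp⟩
    | func f _ => exact nomatch f
  induction φ with
  | falsum => exact ⟨∅, fun s _ N₁ N₂ _ _ _ _ _ _ v₁ v₂ xs₁ xs₂ _ => Iff.rfl⟩
  | equal t₁ t₂ =>
    obtain ⟨x, s₁, rfl, hx⟩ := hterm t₁
    obtain ⟨y, s₂, rfl, hy⟩ := hterm t₂
    refine ⟨s₁ ∪ s₂, fun s hs N₁ N₂ _ _ _ _ _ _ v₁ v₂ xs₁ xs₂ h => ?_⟩
    simp only [BoundedFormula.Realize, Term.realize_var]
    exact h.eq x (hx s (subset_union_left.trans hs)) y (hy s (subset_union_right.trans hs))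
  | rel r ts =>
    cases r
    choose x s₀ hx hs₀ using fun j => hterm (ts j)
    refine ⟨Finset.univ.biUnion s₀, fun s hs N₁ N₂ _ _ _ _ _ _ v₁ v₂ xs₁ xs₂ h => ?_⟩
    simp only [BoundedFormula.Realize, hx, Term.realize_var]
    exact h.rel x fun j => hs₀ j s ((subset_biUnion_of_mem s₀ (mem_univ j)).trans hs)
  | imp φ ψ ih₁ ih₂ =>
    obtain ⟨s₁, h₁⟩ := ih₁
    obtain ⟨s₂, h₂⟩ := ih₂
    refine ⟨s₁ ∪ s₂, fun s hs N₁ N₂ _ _ a b c d v₁ v₂ xs₁ xs₂ h => ?_⟩
    simp only [BoundedFormula.Realize]
    rw [h₁ s (subset_union_left.trans hs) N₁ N₂ a b c d v₁ v₂ xs₁ xs₂ h,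
      h₂ s (subset_union_right.trans hs) N₁ N₂ a b c d v₁ v₂ xs₁ xs₂ h]
  | @all m φ ih =>
    obtain ⟨s₀, h₀⟩ := ih
    have key : ∀ s, s₀ ⊆ s → ∀ (N₁ N₂ : Type) [(L k).Structure N₁] [(L k).Structure N₂],
      IsHyp n k N₁ → IsHyp n k N₂ → Ext n k (E (k := k) (M := N₁)) →
      Ext n k (E (k := k) (M := N₂)) →
      ∀ (v₁ : α → N₁) (v₂ : α → N₂) (xs₁ : Fin m → N₁) (xs₂ : Fin m → N₂),
        PI k (s.disjSum Finset.univ) (Sum.elim v₁ xs₁) (Sum.elim v₂ xs₂) →
        ((∀ b, φ.Realize v₂ (Fin.snoc xs₂ b)) → ∀ a, φ.Realize v₁ (Fin.snoc xs₁ a)) := by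
      intro s hs N₁ N₂ _ _ i₁ i₂ e₁ e₂ v₁ v₂ xs₁ xs₂ h hall a
      obtain ⟨b, hb⟩ := h.extend i₁ i₂ e₂ a
      have hcomp : ∀ {N : Type} (v : α → N) (xs : Fin m → N) (c : N),
          Sum.elim v (Fin.snoc xs c : Fin (m + 1) → N) = fun x : α ⊕ Fin (m + 1) =>
            ((Sum.elim (fun a => some (Sum.inl a))
              (fun j => Fin.lastCases none (fun i => some (Sum.inr i)) j) x :
                Option (α ⊕ Fin m)).elim c (Sum.elim v xs) : N) := by
        intro N v xs c
        funext x
        rcases x with a | j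
        · rfl
        · refine Fin.lastCases ?_ (fun i => ?_) j
          · simp
          · simp
      have h1 := hb.comap (Y := s.disjSum (Finset.univ : Finset (Fin (m + 1))))
        (fun x : α ⊕ Fin (m + 1) => (Sum.elim (fun a => some (Sum.inl a))
          (fun j => Fin.lastCases none (fun i => some (Sum.inr i)) j) x : Option (α ⊕ Fin m))) (by
          intro x hx
          rcases x with a | j
          · simpa using hx
          · refine Fin.lastCases ?_ (fun i => ?_) j
            · simp
            · simp)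
      rw [← hcomp, ← hcomp] at h1
      exact (h₀ s hs N₁ N₂ i₁ i₂ e₁ e₂ v₁ v₂ _ _ h1).2 (hall b)
    refine ⟨s₀, fun s hs N₁ N₂ _ _ i₁ i₂ e₁ e₂ v₁ v₂ xs₁ xs₂ h => ?_⟩
    simp only [BoundedFormula.Realize]
    exact ⟨key s hs N₂ N₁ i₂ i₁ e₂ e₁ v₂ v₁ xs₂ xs₁ h.symm,
      key s hs N₁ N₂ i₁ i₂ e₁ e₂ v₁ v₂ xs₁ xs₂ h⟩

/-- **The model completion exists**: it is the theory of the countable generic hypergraph. -/
theorem isT_gen {n k : ℕ} (hk : 1 ≤ k) (hkn : k < n) : IsT n k (Tgen n k) := by
  refine ⟨fun M _ hM => isHyp_of_gen hkn hM, ?_, ?_⟩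
  · intro M _ hM
    have hG := gen_isHyp hkn
    have hGT : Gen n k ⊨ Tgen n k := ⟨fun φ hφ => hφ⟩
    let U : Ultrafilter (Finset M) := Ultrafilter.of atTop
    have hU : ∀ s₀ : Finset M, ∀ᶠ s : Finset M in (U : Filter (Finset M)), s₀ ⊆ s := by
      intro s₀
      exact Ultrafilter.of_le atTop (eventually_ge_atTop s₀)
    have hUT := upower_models (D := U) hGT
    refine ⟨UPower U (Gen n k), inferInstance, hUT, ?_⟩
    have h0 := fun s : Finset M => embed_finite (by omega) (gen_ext hk hkn) (E_fr hM) s
    choose f hfinj hfE using h0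
    refine ⟨{ toFun := fun a => cls U fun s => f s a
              inj' := ?_
              map_fun' := fun f => nomatch f
              map_rel' := ?_ }⟩
    · intro a b hab
      have h1 := (cls_eq _ _).1 hab
      obtain ⟨s, h2, h3⟩ := (h1.and (hU {a, b})).exists
      exact hfinj s (h3 (by simp)) (h3 (by simp)) h2
    · intro m r x
      cases r
      have h1 : R (k := k) (fun j => cls U fun s => f s (x j)) ↔ R x := by
        rw [R_cls (D := U) (fun j s => f s (x j))]
        have h2 : ∀ᶠ s : Finset M in (U : Filter (Finset M)),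
            (R (k := k) (fun j => f s (x j)) ↔ R x) := by
          filter_upwards [hU (Finset.univ.image x)] with s hs
          rw [R_iffE hG, R_iffE hM]
          have h3 : Finset.univ.image (fun j => f s (x j)) = (Finset.univ.image x).image (f s) := by
            rw [image_image]; rfl
          rw [h3]
          by_cases hc : (Finset.univ.image x).card = k + 1
          · exact hfE s _ hs hc
          · constructor
            · intro h4
              have h5 := E_card hG h4
              rw [card_image_of_injOn ((hfinj s).mono (by exact_mod_cast hs))] at h5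
              exact absurd h5 hc
            · intro h4
              exact absurd (E_card hM h4) hc
        constructor
        · intro h3
          obtain ⟨s, h4, h5⟩ := (h3.and h2).exists
          exact h5.1 h4
        · intro h3
          filter_upwards [h2] with s hs
          exact hs.2 h3
      exact h1
  · intro M N₁ N₂ _ _ _ hM hN₁ hN₂ f₁ f₂ φ
    obtain ⟨s₀, h⟩ := back_forth (n := n) φ
    refine h s₀ (subset_refl _) N₁ N₂ (isHyp_of_gen hkn hN₁) (isHyp_of_gen hkn hN₂)
      (ext_of_gen hk hkn hN₁) (ext_of_gen hk hkn hN₂) f₁ f₂ default default ?_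
    have hin : ∀ x : M ⊕ Fin 0, ∃ a, x = Sum.inl a := by
      rintro (a | j)
      · exact ⟨a, rfl⟩
      · exact j.elim0
    constructor
    · intro x _ y _
      obtain ⟨a, rfl⟩ := hin x
      obtain ⟨b, rfl⟩ := hin y
      simp only [Sum.elim_inl]
      rw [f₁.injective.eq_iff, f₂.injective.eq_iff]
    · intro t _
      choose t' ht' using fun j => hin (t j)
      simp only [ht', Sum.elim_inl]
      exact (R_map f₁ t').trans (R_map f₂ t').symm

end Pool.Agent.U638.KO
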