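import Mathlib

/-! # Hypergraphs given by sets of edges, the extension property, cones -/

set_option autoImplicit false

namespace Pool.Agent.U638.KO

open Finset Classical

variable {V N : Type}

/-- all subsets of `K` with `k + 1` elements are edges -/
def Cl (k : ℕ) (E : Finset V → Prop) (K : Finset V) : Prop := ∀ S ⊆ K, S.card = k + 1 → E S

/-- there is no clique with `n + 1` elements -/
def Fr (n k : ℕ) (E : Finset V → Prop) : Prop := ∀ K : Finset V, K.card = n + 1 → ¬ Cl k E K

/-- the extension property -/
def Ext (n k : ℕ) (E : Finset V → Prop) : Prop :=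
  ∀ (s : Finset V) (F : Finset V → Prop),
    (∀ K ⊆ s, K.card = n → Cl k E K → ∃ S ⊆ K, S.card = k ∧ ¬ F S) →
    ∃ b, b ∉ s ∧ ∀ S ⊆ s, S.card = k → (E (insert b S) ↔ F S)

theorem filter_image {f : V → N} {s S : Finset V} (hf : Set.InjOn f s) (hS : S ⊆ s) :
    s.filter (fun v => f v ∈ S.image f) = S := by
  ext v
  simp only [mem_filter, mem_image]
  constructor
  · rintro ⟨hv, w, hw, h⟩
    rw [← hf (hS hw) hv h]; exact hw
  · intro hv
    exact ⟨hS hv, v, hv, rfl⟩

theorem image_filter {f : V → N} {s : Finset V} {S : Finset N} (hS : S ⊆ s.image f) :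
    (s.filter (fun v => f v ∈ S)).image f = S := by
  ext v
  simp only [mem_image, mem_filter]
  constructor
  · rintro ⟨w, ⟨_, hw⟩, rfl⟩; exact hw
  · intro hv
    obtain ⟨w, hw, rfl⟩ := mem_image.1 (hS hv)
    exact ⟨w, ⟨hw, hv⟩, rfl⟩

/-- every finite part of a clique-free hypergraph embeds in a hypergraph with the extension property -/
theorem embed_finite {n k : ℕ} (hn0 : 0 < n) {EV : Finset V → Prop} {EN : Finset N → Prop}
    (hN : Ext n k EN) (hV : Fr n k EV) (s : Finset V) :
    ∃ f : V → N, Set.InjOn f s ∧ ∀ S ⊆ s, S.card = k + 1 → (EN (S.image f) ↔ EV S) := by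
  induction s using Finset.induction_on with
  | empty =>
    obtain ⟨b, -, -⟩ := hN ∅ (fun _ => False) (fun K hK hn hc => by
      exfalso
      rw [subset_empty.1 hK] at hn
      simp at hn
      omega)
    exact ⟨fun _ => b, by simp, fun S hS h => by
      rw [subset_empty.1 hS] at h; simp at h⟩
  | insert q s hq ih =>
    obtain ⟨f, hf, hE⟩ := ih
    obtain ⟨b, hb, hbE⟩ := hN (s.image f) (fun S' => EV (insert q (s.filter fun v => f v ∈ S'))) (by
      intro K' hK' hn hc
      by_contra hcon
      push Not at hcon
      set K := s.filter fun v => f v ∈ K' with hKdef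
      have hKim : K.image f = K' := image_filter hK'
      have hKs : K ⊆ s := filter_subset _ _
      have hKinj : Set.InjOn f K := hf.mono (by exact_mod_cast hKs)
      have hKcard : K.card = n := by rw [← hn, ← hKim, card_image_of_injOn hKinj]
      have hqK : q ∉ K := fun h => hq (hKs h)
      refine hV (insert q K) (by rw [card_insert_of_notMem hqK, hKcard]) ?_
      intro S hS hcard
      by_cases hqS : q ∈ S
      · have h1 : S.erase q ⊆ K := by
          intro v hv
          rw [mem_erase] at hv
          exact (mem_insert.1 (hS hv.2)).resolve_left hv.1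
        have h2 := hcon ((S.erase q).image f) (by
          rw [← hKim]; exact image_subset_image h1) (by
          rw [card_image_of_injOn (hKinj.mono (by exact_mod_cast h1)), card_erase_of_mem hqS, hcard]
          rfl)
        rw [filter_image hf (h1.trans hKs), insert_erase hqS] at h2
        exact h2
      · have h1 : S ⊆ K := by
          intro v hv
          refine (mem_insert.1 (hS hv)).resolve_left ?_
          rintro rfl; exact hqS hv
        have h2 := hc (S.image f) (by rw [← hKim]; exact image_subset_image h1) (by
          rw [card_image_of_injOn (hKinj.mono (by exact_mod_cast h1)), hcard])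
        exact (hE S (h1.trans hKs) hcard).1 h2)
    have hup : ∀ S ⊆ s, S.image (Function.update f q b) = S.image f := by
      intro S hS
      apply image_congr
      intro v hv
      have : v ≠ q := by rintro rfl; exact hq (hS hv)
      simp [Function.update_of_ne this]
    refine ⟨Function.update f q b, ?_, ?_⟩
    · intro v hv w hw h
      rw [mem_coe, mem_insert] at hv hw
      by_cases hvq : v = q <;> by_cases hwq : w = q
      · rw [hvq, hwq]
      · exfalso
        rw [hvq, Function.update_self, Function.update_of_ne hwq] at h
        exact hb (mem_image.2 ⟨w, hw.resolve_left hwq, h.symm⟩)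
      · exfalso
        rw [hwq, Function.update_self, Function.update_of_ne hvq] at h
        exact hb (mem_image.2 ⟨v, hv.resolve_left hvq, h⟩)
      · rw [Function.update_of_ne hvq, Function.update_of_ne hwq] at h
        exact hf (hv.resolve_left hvq) (hw.resolve_left hwq) h
    · intro S hS hcard
      by_cases hqS : q ∈ S
      · have h1 : S.erase q ⊆ s := by
          intro v hv
          rw [mem_erase] at hv
          exact (mem_insert.1 (hS hv.2)).resolve_left hv.1
        have h3 : ((S.erase q).image f).card = k := by
          rw [card_image_of_injOn (hf.mono (by exact_mod_cast h1)), card_erase_of_mem hqS, hcard]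
          rfl
        have h2 := hbE ((S.erase q).image f) (image_subset_image h1) h3
        rw [filter_image hf h1, insert_erase hqS] at h2
        rw [← h2]
        have h4 : S.image (Function.update f q b) = insert b ((S.erase q).image f) := by
          conv_lhs => rw [← insert_erase hqS]
          rw [image_insert, Function.update_self, hup _ h1]
        rw [h4]
      · have h1 : S ⊆ s := by
          intro v hv
          refine (mem_insert.1 (hS hv)).resolve_left ?_
          rintro rfl; exact hqS hv
        rw [hup S h1]
        exact hE S h1 hcard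

/-- the cone with `d` new points -/
def cone (d : ℕ) (E : Finset V → Prop) : Finset (V ⊕ Fin d) → Prop :=
  fun S => (∃ j, Sum.inr j ∈ S) ∨ E S.toLeft

theorem cone_fr {n k d : ℕ} {E : Finset V → Prop} (h : Fr n k E) : Fr (n + d) k (cone d E) := by
  intro K hK hc
  have h1 : K.toRight.card ≤ d := by simpa using card_le_univ K.toRight
  have h2 := card_toLeft_add_card_toRight (u := K)
  obtain ⟨K₀, hK₀, hcard⟩ := exists_subset_card_eq (show n + 1 ≤ K.toLeft.card by omega)
  apply h K₀ hcard
  intro S hS hk
  have h3 := hc (S.map Function.Embedding.inl) (by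
    intro v hv
    simp only [mem_map, Function.Embedding.inl_apply] at hv
    obtain ⟨a, ha, rfl⟩ := hv
    exact mem_toLeft.1 (hK₀ (hS ha))) (by rw [card_map, hk])
  rcases h3 with ⟨j, hj⟩ | h3
  · simp at hj
  · have : (S.map (Function.Embedding.inl : V ↪ V ⊕ Fin d)).toLeft = S := by
      ext v; simp
    rwa [this] at h3

end Pool.Agent.U638.KO
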