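import Mathlib

/-! # Keisler's order and the theories `T_{n,k}` of the generic clique-free hypergraphs -/

set_option autoImplicit false

namespace Pool.Agent.U638.KO

open FirstOrder FirstOrder.Language Cardinal Filter

/-! ## Keisler's order -/

/-- `M` is `κ`-saturated: every set `p` of formulas in one variable (`none`) with parameters in a set
`A` of fewer than `κ` elements of `M` is realized in `M` if every finite part of `p` is. -/
def Saturated (L : FirstOrder.Language.{0, 0}) (κ : Cardinal.{0}) (M : Type) [L.Structure M] : Prop :=
  ∀ A : Set M, #A < κ → ∀ p : Set (L.Formula (Option A)),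
    (∀ s : Set (L.Formula (Option A)), s ⊆ p → s.Finite →
      ∃ b : M, ∀ φ ∈ s, φ.Realize (fun o => o.elim b (fun a => (a : M)))) →
    ∃ b : M, ∀ φ ∈ p, φ.Realize (fun o => o.elim b (fun a => (a : M)))

/-- The ultrapower `M^I / D`. -/
abbrev UPower {I : Type} (D : Ultrafilter I) (M : Type) : Type :=
  (D : Filter I).Product (fun _ : I => M)

/-- The ultrafilter `D` on `I` is regular: there are `|I|` sets in `D` such that every point of `I`
lies in only finitely many of them. -/
def Regular {I : Type} (D : Ultrafilter I) : Prop :=
  ∃ X : I → Set I, (∀ j, X j ∈ D) ∧ ∀ i, {j | i ∈ X j}.Finite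

/-- `D` is good for `T`: the ultrapower `M^λ / D` is `λ⁺`-saturated for some model `M` of `T`, where
`λ = |I|`. -/
def Good {I : Type} (D : Ultrafilter I) (L : FirstOrder.Language.{0, 0}) (T : L.Theory) : Prop :=
  ∃ (M : Type) (_ : L.Structure M) (_ : Nonempty M), M ⊨ T ∧
    Saturated L (Order.succ #I) (UPower D M)

/-- **Keisler's order** `T₁ ⊴ T₂`: for every infinite set `I` and every regular ultrafilter `D` on
`I`, if `D` is good for `T₂` then `D` is good for `T₁`. -/
def KeislerLE (L₁ L₂ : FirstOrder.Language.{0, 0}) (T₁ : L₁.Theory) (T₂ : L₂.Theory) : Prop :=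
  ∀ (I : Type), Infinite I → ∀ D : Ultrafilter I, Regular D → Good D L₂ T₂ → Good D L₁ T₁

/-! ## The theories `T_{n,k}` -/

/-- The relation symbol, with `k + 1` places. -/
inductive HRel (k : ℕ) : ℕ → Type
  | edge : HRel k (k + 1)

/-- The language with one relation symbol, which has `k + 1` places. -/
def L (k : ℕ) : FirstOrder.Language.{0, 0} := ⟨fun _ => Empty, HRel k⟩

/-- The relation of a structure. -/
def R {k : ℕ} {M : Type} [(L k).Structure M] (x : Fin (k + 1) → M) : Prop :=
  Structure.RelMap (L := L k) (M := M) (n := k + 1) HRel.edge x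

/-- `M` is a model of the universal theory of the `(k + 1)`-uniform hypergraphs (the relation is
symmetric and irreflexive) without `n + 1` distinct elements such that every `k + 1` of them form an
edge. -/
structure IsHyp (n k : ℕ) (M : Type) [(L k).Structure M] : Prop where
  symm : ∀ (x : Fin (k + 1) → M) (σ : Equiv.Perm (Fin (k + 1))), R x → R (x ∘ σ)
  irrefl : ∀ x : Fin (k + 1) → M, R x → Function.Injective x
  free : ¬ ∃ y : Fin (n + 1) → M, Function.Injective y ∧
    ∀ e : Fin (k + 1) → Fin (n + 1), Function.Injective e → R (y ∘ e)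

/-- `T` is (an axiomatisation of) `T_{n,k}`, the model completion of this universal theory: the
models of `T` are models of the universal theory; every model of the universal theory is a
substructure of a model of `T`; and two models of `T` which extend the same model `M` of the universal
theory satisfy the same formulas with parameters in `M`. -/
structure IsT (n k : ℕ) (T : (L k).Theory) : Prop where
  models : ∀ (M : Type) [(L k).Structure M], M ⊨ T → IsHyp n k M
  extend : ∀ (M : Type) [(L k).Structure M], IsHyp n k M →
    ∃ (N : Type) (_ : (L k).Structure N), N ⊨ T ∧ Nonempty (M ↪[L k] N)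
  complete : ∀ (M N₁ N₂ : Type) [(L k).Structure M] [(L k).Structure N₁] [(L k).Structure N₂],
    IsHyp n k M → N₁ ⊨ T → N₂ ⊨ T → ∀ (f₁ : M ↪[L k] N₁) (f₂ : M ↪[L k] N₂)
      (φ : (L k).Formula M), φ.Realize f₁ ↔ φ.Realize f₂

end Pool.Agent.U638.KO
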