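import Pool.Agent.U638.KO.Struct

/-! # The models of the model completion have the extension property -/

set_option autoImplicit false

namespace Pool.Agent.U638.KO

open FirstOrder FirstOrder.Language Filter Finset Classical

variable {n k : ℕ}

/-- the structure given by a set of edges -/
@[reducible] def ofE (k : ℕ) {V : Type} (G : Finset V → Prop) : (L k).Structure V where
  funMap := fun f => nomatch f
  RelMap := fun _ x => Function.Injective x ∧ G (Finset.univ.image x)

theorem R_ofE {V : Type} (G : Finset V → Prop) (x : Fin (k + 1) → V) :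
    @R k V (ofE k G) x ↔ Function.Injective x ∧ G (Finset.univ.image x) := Iff.rfl

theorem E_ofE {V : Type} (G : Finset V → Prop) (S : Finset V) :
    @E k V (ofE k G) S ↔ S.card = k + 1 ∧ G S := by
  constructor
  · rintro ⟨x, hx, rfl⟩
    exact ⟨by rw [card_image_of_injective _ hx.1]; simp, hx.2⟩
  · rintro ⟨h1, h2⟩
    obtain ⟨x, hx, rfl⟩ := exists_enum h1
    exact ⟨x, ⟨hx, h2⟩, rfl⟩

theorem ofE_isHyp {V : Type} {G : Finset V → Prop} (h : Fr n k G) :
    @IsHyp n k V (ofE k G) := by
  let _ := ofE k G
  refine isHyp_of (fun x σ hx => ?_) (fun x hx => hx.1) ?_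
  · refine ⟨hx.1.comp σ.injective, ?_⟩
    have : Finset.univ.image (x ∘ σ) = Finset.univ.image x := by
      rw [← image_image]
      congr 1
      simp
    rw [this]; exact hx.2
  · intro K hK hc
    exact h K hK fun S hS hcard => ((E_ofE G S).1 (hc S hS hcard)).2

/-- the atomic formula -/
def relF {α : Type} (t : Fin (k + 1) → α) : (L k).Formula α :=
  Relations.formula (L := L k) (n := k + 1) (HRel.edge : HRel k (k + 1)) (fun j => Term.var (t j))

theorem realize_relF {α M : Type} [(L k).Structure M] (t : Fin (k + 1) → α) (v : α → M) :
    (relF t).Realize v ↔ R (fun j => v (t j)) := by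
  exact Formula.realize_rel (L := L k) (M := M) (k := k + 1) (R := (HRel.edge : HRel k (k + 1)))

/-- one new point -/
def addG {M : Type} (E : Finset M → Prop) (s : Finset M) (F : Finset M → Prop)
    (S : Finset (Option M)) : Prop :=
  if none ∈ S then S.eraseNone ⊆ s ∧ F S.eraseNone else E S.eraseNone

theorem addG_fr {M : Type} {E : Finset M → Prop} (hk : 1 ≤ k) (hkn : k < n) (hE : Fr n k E)
    (s : Finset M) (F : Finset M → Prop)
    (h : ∀ K ⊆ s, K.card = n → Cl k E K → ∃ S ⊆ K, S.card = k ∧ ¬ F S) :
    Fr n k (addG E s F) := by
  intro K hK hc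
  have hsub : ∀ S ⊆ K.eraseNone, S.image some ⊆ K := by
    intro S hS v hv
    rw [mem_image] at hv
    obtain ⟨a, ha, rfl⟩ := hv
    exact mem_eraseNone.1 (hS ha)
  have hcard : ∀ S : Finset M, (S.image some).card = S.card := fun S =>
    card_image_of_injective _ (Option.some_injective _)
  have herase : ∀ S : Finset M, (S.image some).eraseNone = S := by
    intro S; ext v; simp
  have hcl : Cl k E K.eraseNone := by
    intro S hS hk1
    have h1 := hc (S.image some) (hsub S hS) (by rw [hcard, hk1])
    unfold addG at h1
    rw [if_neg (by simp), herase] at h1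
    exact h1
  by_cases hn : none ∈ K
  · have hKc : K.eraseNone.card = n := by
      have h1 : insert none (K.eraseNone.image some) = K := by
        ext v
        cases v with
        | none => simp [hn]
        | some a => simp
      have h2 := congrArg Finset.card h1
      rw [card_insert_of_notMem (by simp), hcard, hK] at h2
      omega
    have hF : ∀ S ⊆ K.eraseNone, S.card = k → S ⊆ s ∧ F S := by
      intro S hS hk1
      have h1 := hc (insert none (S.image some)) (by
        intro v hv
        rw [mem_insert] at hv
        rcases hv with rfl | hv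
        · exact hn
        · exact hsub S hS hv) (by rw [card_insert_of_notMem (by simp), hcard, hk1])
      unfold addG at h1
      have h2 : (insert none (S.image some)).eraseNone = S := by ext v; simp
      rw [if_pos (by simp), h2] at h1
      exact h1
    have hs : K.eraseNone ⊆ s := by
      intro v hv
      obtain ⟨u, hu1, hu2, hu3⟩ := exists_subsuperset_card_eq (s := {v}) (t := K.eraseNone) (n := k)
        (by simpa using hv) (by simpa using hk) (by omega)
      exact (hF u hu2 hu3).1 (hu1 (by simp))
    obtain ⟨S, hS, hSk, hSF⟩ := h _ hs hKc hcl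
    exact hSF (hF S hS hSk).2
  · refine hE K.eraseNone ?_ hcl
    have h1 : K.eraseNone.image some = K := by
      ext v
      cases v with
      | none => simp [hn]
      | some a => simp
    have h2 := congrArg Finset.card h1
    rw [hcard, hK] at h2
    exact h2

theorem image_cons {V : Type} (b : V) (t : Fin k → V) :
    Finset.univ.image (Fin.cons b t : Fin (k + 1) → V) = insert b (Finset.univ.image t) := by
  ext v
  simp only [mem_image, mem_univ, true_and, mem_insert, Fin.exists_fin_succ, Fin.cons_zero,
    Fin.cons_succ]
  constructor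
  · rintro (h | h)
    · exact Or.inl h.symm
    · exact Or.inr h
  · rintro (h | h)
    · exact Or.inl h.symm
    · exact Or.inr h

theorem ext_of_isT (hk : 1 ≤ k) (hkn : k < n) {T : (L k).Theory} (hT : IsT n k T) (M : Type)
    [(L k).Structure M] (hM : M ⊨ T) : Ext n k (E (k := k) (M := M)) := by
  intro s F h
  have hH := hT.models M hM
  let inst : (L k).Structure (Option M) := ofE k (addG (E (k := k) (M := M)) s F)
  have hO : IsHyp n k (Option M) := ofE_isHyp (addG_fr hk hkn (E_fr hH) s F h)
  obtain ⟨N, instN, hN, ⟨g⟩⟩ := hT.extend (Option M) hO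
  let emb : M ↪[L k] Option M :=
    { toFun := some
      inj' := Option.some_injective _
      map_fun' := fun f => nomatch f
      map_rel' := by
        intro m r x
        cases r
        change (Function.Injective (some ∘ x) ∧ addG _ s F _) ↔ R x
        rw [R_iff hH]
        have h1 : Function.Injective (some ∘ x) ↔ Function.Injective x :=
          ⟨fun h => h.of_comp, fun h => (Option.some_injective _).comp h⟩
        have h2 : ∀ i1 : DecidableEq (Option M),
            (@Finset.image _ _ i1 (some ∘ x) Finset.univ).eraseNone = Finset.univ.image x := by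
          intro i1; ext v; simp
        unfold addG
        rw [if_neg (by simp), h2, h1] }
  let ψ : (L k).Formula (M ⊕ Unit) :=
    (Formula.iInf fun a : s => ∼(Term.equal (Term.var (Sum.inr ())) (Term.var (Sum.inl (a : M))))) ⊓
    (Formula.iInf fun t : Fin k → s =>
      if Function.Injective t ∧ F (Finset.univ.image fun j => (t j : M)) then
        relF (Fin.cons (Sum.inr ()) fun j => Sum.inl (t j : M))
      else ∼(relF (Fin.cons (Sum.inr ()) fun j => Sum.inl (t j : M))))
  have hψ : ∀ (W : Type) [(L k).Structure W] (v : M → W) (b : W),
      ψ.Realize (Sum.elim v fun _ => b) ↔ (∀ a ∈ s, b ≠ v a) ∧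
        ∀ t : Fin k → s, R (Fin.cons b (fun j => v (t j)) : Fin (k + 1) → W) ↔
          (Function.Injective t ∧ F (Finset.univ.image fun j => (t j : M))) := by
    intro W _ v b
    simp only [ψ]
    rw [Formula.realize_inf, Formula.realize_iInf, Formula.realize_iInf]
    refine and_congr ?_ (forall_congr' fun t => ?_)
    · constructor
      · intro h1 a ha
        simpa using h1 ⟨a, ha⟩
      · intro h1 a
        simpa using h1 a a.2
    · have h3 : (fun j => (Sum.elim v (fun _ : Unit => b) : M ⊕ Unit → W)
          ((Fin.cons (Sum.inr ()) (fun j => Sum.inl (t j : M)) : Fin (k + 1) → M ⊕ Unit) j)) =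
          (Fin.cons b (fun j => v (t j)) : Fin (k + 1) → W) := by
        funext j
        refine Fin.cases ?_ (fun j => ?_) j <;> simp
      split_ifs with h2
      · rw [realize_relF, h3]
        exact ⟨fun h => ⟨fun _ => h2, fun _ => h⟩, fun h => h.2 h2⟩
      · rw [Formula.realize_not, realize_relF, h3]
        exact ⟨fun h => ⟨fun h' => absurd h' h, fun h' => absurd h' h2⟩, fun h h' => h2 (h.1 h')⟩
  have hc := hT.complete M M N hH hM hN (Embedding.refl (L k) M) (g.comp emb) (ψ.iExs Unit)
  have h2 : (ψ.iExs Unit).Realize (g.comp emb) := by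
    rw [Formula.realize_iExs]
    refine ⟨fun _ => g none, ?_⟩
    have h3 := (hψ N (g.comp emb) (g none)).2 ?_
    · exact h3
    · refine ⟨fun a _ h => ?_, fun t => ?_⟩
      · have : (none : Option M) = some a := g.injective h
        simp at this
      · have h4 : (Fin.cons (g none) (fun j => (g.comp emb) (t j : M)) : Fin (k + 1) → N) =
            g ∘ (Fin.cons none (fun j => some (t j : M)) : Fin (k + 1) → Option M) := by
          funext j
          refine Fin.cases ?_ (fun j => ?_) j <;> rfl
        rw [h4, R_map, R_ofE, image_cons]
        have h5 : Function.Injective (Fin.cons none (fun j => some (t j : M)) : Fin (k + 1) → Option M) ↔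
            Function.Injective t := by
          rw [Fin.cons_injective_iff]
          constructor
          · rintro ⟨-, h⟩ a b hab
            exact h (by simp [hab])
          · intro h
            refine ⟨by simp, fun a b hab => h (Subtype.ext (Option.some_injective _ hab))⟩
        rw [h5]
        unfold addG
        rw [if_pos (by simp)]
        have h6 : ∀ i1 : DecidableEq (Option M),
            (@insert _ (Finset (Option M)) (@Finset.instInsert _ i1) none
              (@Finset.image _ _ i1 (fun j => some (t j : M)) Finset.univ)).eraseNone =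
            Finset.univ.image fun j => (t j : M) := by intro i1; ext v; simp
        rw [h6]
        constructor
        · rintro ⟨a, -, b⟩; exact ⟨a, b⟩
        · rintro ⟨a, b⟩
          refine ⟨a, ?_, b⟩
          intro v hv
          rw [mem_image] at hv
          obtain ⟨j, -, rfl⟩ := hv
          exact (t j).2
  have h3 := hc.2 h2
  rw [Formula.realize_iExs] at h3
  obtain ⟨b, hb⟩ := h3
  have h4 := (hψ M id (b ())).1 (by
    exact hb)
  refine ⟨b (), fun hbs => h4.1 _ hbs rfl, ?_⟩
  intro S hS hcard
  obtain ⟨x, hx, hxS⟩ := exists_enum hcard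
  have hxs : ∀ j, x j ∈ s := fun j => hS (by rw [← hxS]; exact mem_image_of_mem x (mem_univ j))
  have h5 := h4.2 (fun j => ⟨x j, hxs j⟩)
  have h6 : Function.Injective (fun j => (⟨x j, hxs j⟩ : s)) := fun a b hab => hx (by simpa using hab)
  simp only [id, hxS, h6, true_and] at h5
  rw [← h5, R_iff hH, image_cons, hxS]
  have h7 : Function.Injective (Fin.cons (b ()) (fun j => x j) : Fin (k + 1) → M) := by
    rw [Fin.cons_injective_iff]
    refine ⟨?_, hx⟩
    rintro ⟨j, hj⟩
    exact h4.1 (x j) (hxs j) hj.symm
  exact ⟨fun h => ⟨h7, h⟩, fun h => h.2⟩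

end Pool.Agent.U638.KO
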