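import Pool.Agent.U638.KO.Main2

/-! # A countable generic hypergraph -/

set_option autoImplicit false

namespace Pool.Agent.U638.KO

open Finset Classical

/-- every finite set of finite sets has arbitrarily large codes -/
noncomputable def code (a : ℕ) : Finset (Finset ℕ) :=
  (Encodable.decode (α := Finset (Finset ℕ)) (Nat.unpair a).1).getD ∅

theorem code_surj (X : Finset (Finset ℕ)) (m : ℕ) : ∃ a, m ≤ a ∧ code a = X :=
  ⟨Nat.pair (Encodable.encode X) m, Nat.right_le_pair _ _, by simp [code]⟩

/-- the edges contained in `{0, ..., a - 1}` -/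
def En (n k : ℕ) : ℕ → Finset ℕ → Prop
  | 0 => fun _ => False
  | a + 1 => fun S => En n k a S ∨ (a ∈ S ∧ S.erase a ⊆ range a ∧ S.card = k + 1 ∧
      S.erase a ∈ code a ∧
      ∀ K ⊆ range a, K.card = n → Cl k (En n k a) K → ∃ S' ⊆ K, S'.card = k ∧ S' ∉ code a)

/-- the edges -/
def Ei (n k : ℕ) (S : Finset ℕ) : Prop := ∃ a, En n k a S

theorem En_sub {n k a : ℕ} {S : Finset ℕ} (h : En n k a S) : S ⊆ range a ∧ S.card = k + 1 := by
  induction a with
  | zero => exact absurd h (by simp [En])
  | succ a ih =>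
    rw [En] at h
    rcases h with h | ⟨h1, h2, h3, -⟩
    · exact ⟨(ih h).1.trans (range_subset_range.2 (Nat.le_succ a)), (ih h).2⟩
    · refine ⟨?_, h3⟩
      intro v hv
      rw [mem_range]
      by_cases hva : v = a
      · omega
      · have := mem_range.1 (h2 (mem_erase.2 ⟨hva, hv⟩))
        omega

theorem En_mono {n k a b : ℕ} {S : Finset ℕ} (hab : a ≤ b) (h : En n k a S) : En n k b S := by
  induction b, hab using Nat.le_induction with
  | base => exact h
  | succ b _ ih => rw [En]; exact Or.inl ih

theorem En_of_sub {n k a : ℕ} {S : Finset ℕ} (hS : S ⊆ range a) (h : Ei n k S) : En n k a S := by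
  obtain ⟨b, hb⟩ := h
  induction b with
  | zero => exact absurd hb (by simp [En])
  | succ b ih =>
    by_cases hba : b + 1 ≤ a
    · exact En_mono hba hb
    · rw [En] at hb
      rcases hb with hb | ⟨h1, -⟩
      · exact ih hb
      · have := mem_range.1 (hS h1)
        omega

theorem Ei_fr {n k : ℕ} (hkn : k < n) : Fr n k (Ei n k) := by
  intro K hK hc
  have hne : K.Nonempty := by rw [← card_pos]; omega
  set a := K.max' hne with ha
  have haK : a ∈ K := max'_mem K hne
  have hsub : K.erase a ⊆ range a := by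
    intro v hv
    rw [mem_erase] at hv
    rw [mem_range]
    exact lt_of_le_of_ne (le_max' K v hv.2) hv.1
  have hKe : (K.erase a).card = n := by rw [card_erase_of_mem haK, hK]; rfl
  have h1 : ∀ S ⊆ K.erase a, S.card = k → S ∈ code a ∧
      ∀ K ⊆ range a, K.card = n → Cl k (En n k a) K → ∃ S' ⊆ K, S'.card = k ∧ S' ∉ code a := by
    intro S hS hSk
    have haS : a ∉ S := fun h => (mem_erase.1 (hS h)).1 rfl
    have h2 := hc (insert a S) (by
      intro v hv
      rcases mem_insert.1 hv with rfl | hv
      · exact haK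
      · exact (mem_erase.1 (hS hv)).2) (by rw [card_insert_of_notMem haS, hSk])
    have h3 : insert a S ⊆ range (a + 1) := by
      intro v hv
      rw [mem_range]
      rcases mem_insert.1 hv with rfl | hv
      · omega
      · have := mem_range.1 (hsub (hS hv)); omega
    have h4 := En_of_sub h3 h2
    rw [En] at h4
    rcases h4 with h4 | ⟨-, -, -, h5, h6⟩
    · have := mem_range.1 ((En_sub h4).1 (mem_insert_self a S))
      omega
    · rw [erase_insert haS] at h5
      exact ⟨h5, h6⟩
  obtain ⟨S₀, hS₀, hS₀k⟩ := exists_subset_card_eq (show k ≤ (K.erase a).card by omega)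
  obtain ⟨S', hS', hS'k, hS'c⟩ := (h1 S₀ hS₀ hS₀k).2 (K.erase a) hsub hKe (by
    intro S hS hSk
    exact En_of_sub (hS.trans hsub) (hc S (hS.trans (erase_subset _ _)) hSk))
  exact hS'c (h1 S' hS' hS'k).1

theorem Ei_ext {n k : ℕ} (hk : 1 ≤ k) (hkn : k < n) : Ext n k (Ei n k) := by
  intro s F h
  obtain ⟨a, ha, hcode⟩ := code_surj ((s.powersetCard k).filter F) (s.sup id + 1)
  have hsa : ∀ v ∈ s, v < a := by
    intro v hv
    have := le_sup (f := id) hv
    simp only [id] at this
    omega
  have has : a ∉ s := fun h => absurd (hsa a h) (lt_irrefl a)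
  refine ⟨a, has, fun S hS hSk => ?_⟩
  have haS : a ∉ S := fun h => has (hS h)
  have hmem : ∀ S, S ∈ code a ↔ (S ⊆ s ∧ S.card = k) ∧ F S := by
    intro S
    rw [hcode, mem_filter, mem_powersetCard]
  have key : Ei n k (insert a S) ↔ F S := by
    constructor
    · intro h2
      have h3 : insert a S ⊆ range (a + 1) := by
        intro v hv
        rw [mem_range]
        rcases mem_insert.1 hv with rfl | hv
        · omega
        · have := hsa v (hS hv); omega
      have h4 := En_of_sub h3 h2
      rw [En] at h4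
      rcases h4 with h4 | ⟨-, -, -, h5, -⟩
      · have := mem_range.1 ((En_sub h4).1 (mem_insert_self a S))
        omega
      · rw [erase_insert haS, hmem] at h5
        exact h5.2
    · intro hFS
      refine ⟨a + 1, ?_⟩
      rw [En]
      right
      refine ⟨mem_insert_self a S, ?_, by rw [card_insert_of_notMem haS, hSk], ?_, ?_⟩
      · rw [erase_insert haS]
        intro v hv
        exact mem_range.2 (hsa v (hS hv))
      · rw [erase_insert haS, hmem]
        exact ⟨⟨hS, hSk⟩, hFS⟩
      · intro K hK hKn hKc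
        by_cases hKs : K ⊆ s
        · obtain ⟨S', h1, h2, h3⟩ := h K hKs hKn (fun S hS hSk => ⟨a, hKc S hS hSk⟩)
          exact ⟨S', h1, h2, fun h4 => h3 ((hmem S').1 h4).2⟩
        · obtain ⟨v, hvK, hvs⟩ := not_subset.1 hKs
          obtain ⟨S', h1, h2, h3⟩ := exists_subsuperset_card_eq (s := {v}) (t := K) (n := k)
            (by simpa using hvK) (by simpa using hk) (by omega)
          exact ⟨S', h2, h3, fun h4 => hvs (((hmem S').1 h4).1.1 (h1 (by simp)))⟩
  have e : (@insert ℕ (Finset ℕ) (@Finset.instInsert ℕ fun a b => Classical.propDecidable (a = b))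
      a S) = insert a S := by
    ext v
    simp
  rw [e]
  exact key

/-- the generic structure -/
def Gen (_n _k : ℕ) : Type := ℕ

noncomputable instance (n k : ℕ) : (L k).Structure (Gen n k) := ofE k (V := ℕ) (Ei n k)

instance (n k : ℕ) : Nonempty (Gen n k) := ⟨(0 : ℕ)⟩

theorem gen_isHyp {n k : ℕ} (hkn : k < n) : IsHyp n k (Gen n k) :=
  ofE_isHyp (V := ℕ) (Ei_fr hkn)

theorem gen_ext {n k : ℕ} (hk : 1 ≤ k) (hkn : k < n) : Ext n k (E (k := k) (M := Gen n k)) := by
  have h1 : E (k := k) (M := Gen n k) = Ei n k := by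
    funext S
    apply propext
    refine (E_ofE (Ei n k) S).trans ⟨fun h => h.2, fun h => ⟨?_, h⟩⟩
    obtain ⟨a, ha⟩ := h
    exact (En_sub ha).2
  rw [h1]
  exact Ei_ext hk hkn

end Pool.Agent.U638.KO
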