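import Pool.Agent.U638.KO.ExtT

/-! # Realizing the quantifier-free types -/

set_option autoImplicit false

namespace Pool.Agent.U638.KO

open FirstOrder FirstOrder.Language Filter Finset Classical Cardinal

theorem R_iffE {n k : ℕ} {M : Type} [(L k).Structure M] (h : IsHyp n k M) (x : Fin (k + 1) → M) :
    R x ↔ E (k := k) (Finset.univ.image x) := by
  rw [R_iff h]
  refine ⟨fun h => h.2, fun hx => ⟨?_, hx⟩⟩
  exact inj_of_card (by simp) (E_card h hx)

theorem ev_iff {I : Type} {D : Ultrafilter I} {P : Prop} {Q : I → Prop}
    (h : P ↔ ∀ᶠ i in D, Q i) : ∀ᶠ i in D, (Q i ↔ P) := by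
  by_cases hP : P
  · filter_upwards [h.1 hP] with i hi
    exact ⟨fun _ => hP, fun _ => hi⟩
  · have h1 : ∀ᶠ i in D, ¬ Q i := Ultrafilter.eventually_not.2 (fun h' => hP (h.2 h'))
    filter_upwards [h1] with i hi
    exact ⟨fun h' => absurd h' hi, fun h' => absurd h' hP⟩

theorem cls_ne {I : Type} {D : Ultrafilter I} {M : Type} {x y : I → M} (h : cls D x ≠ cls D y) :
    ∀ᶠ i in D, x i ≠ y i :=
  Ultrafilter.eventually_not.2 (fun h' => h ((cls_eq x y).2 h'))

theorem injOn_ev {I V W : Type} {D : Ultrafilter I} {u : V → I → W}
    (h : ∀ x y, x ≠ y → ∀ᶠ i in D, u x i ≠ u y i) (S : Finset V) :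
    ∀ᶠ i in D, Set.InjOn (fun x => u x i) S := by
  have h1 : ∀ x ∈ S, ∀ᶠ i in D, ∀ y ∈ S, x ≠ y → u x i ≠ u y i := by
    intro x _
    rw [eventually_all_finset]
    intro y _
    by_cases hxy : x = y
    · exact Eventually.of_forall fun i h => absurd hxy h
    · filter_upwards [h x y hxy] with i hi _
      exact hi
  filter_upwards [(eventually_all_finset S).2 h1] with i hi x hx y hy hxy
  by_contra hne
  exact hi x hx y hy hne hxy

/-- the edges inside a set of parameters -/
def EA {k : ℕ} {M : Type} [(L k).Structure M] (A : Set M) (S : Finset A) : Prop :=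
  E (k := k) (S.image (Subtype.val : A → M))

/-- the types over the cone -/
def Fp {A : Type} {d : ℕ} (F : Finset A → Prop) (S : Finset (A ⊕ Fin d)) : Prop :=
  (∃ j, Sum.inr j ∈ S) ∨ F S.toLeft

theorem Fp_map {A : Type} {d : ℕ} (F : Finset A → Prop) (S : Finset A) :
    Fp (d := d) F (S.map Function.Embedding.inl) ↔ F S := by
  unfold Fp
  have h1 : (S.map (Function.Embedding.inl : A ↪ A ⊕ Fin d)).toLeft = S := by ext v; simp
  rw [h1]
  simp

theorem realize_qf {n k d : ℕ} (hk : 1 ≤ k) (hkn : k < n) {M N I : Type} [(L k).Structure M]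
    [(L k).Structure N] [Infinite I] {D : Ultrafilter I}
    (hM : IsHyp n k M) (hMe : Ext n k (E (k := k) (M := M)))
    (hN : IsHyp (n + d) k N) (hNe : Ext (n + d) k (E (k := k) (M := N)))
    (hUM : IsHyp n k (UPower D M)) (hUN : IsHyp (n + d) k (UPower D N))
    (hUNe : Ext (n + d) k (E (k := k) (M := UPower D N)))
    (hreg : Regular D) (hsat : Saturated (L k) (Order.succ #I) (UPower D N))
    (A : Set (UPower D M)) (hA : #A ≤ #I) (F : Finset A → Prop)
    (hF : ∀ K : Finset A, K.card = n → Cl k (EA (k := k) A) K → ∃ S ⊆ K, S.card = k ∧ ¬ F S) :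
    ∃ b : UPower D M, b ∉ A ∧ ∀ S : Finset A, S.card = k →
      (E (k := k) (insert b (S.image (Subtype.val : A → UPower D M))) ↔ F S) := by
  obtain ⟨X, hX, hXfin⟩ := hreg
  obtain ⟨ι⟩ : Nonempty (A ↪ I) := hA
  have hr0 : ∀ a : A, ∃ x : I → M, cls D x = a := fun a => cls_surj _
  choose r hr using hr0
  have hactfin : ∀ i, {a : A | i ∈ X (ι a)}.Finite := fun i =>
    Set.Finite.preimage (fun a _ b _ h => ι.injective h) (hXfin i)
  let act : I → Finset A := fun i => (hactfin i).toFinset
  have hact : ∀ i a, a ∈ act i ↔ i ∈ X (ι a) := fun i a => by simp [act]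
  let P : I → Finset M := fun i => (act i).image fun a => r a i
  let s : I → Finset (M ⊕ Fin d) := fun i => (P i).disjSum Finset.univ
  have hf0 := fun i => embed_finite (by omega) hNe (cone_fr (d := d) (E_fr hM)) (s i)
  choose f hfinj hfE using hf0
  let u : A ⊕ Fin d → I → M ⊕ Fin d :=
    Sum.elim (fun a i => Sum.inl (r a i)) (fun j _ => Sum.inr j)
  let g : A ⊕ Fin d → I → N := fun x i => f i (u x i)
  -- facts
  have fact1 : ∀ S : Finset (A ⊕ Fin d), ∀ᶠ i in D, S.image (fun x => u x i) ⊆ s i := by
    intro S
    have h1 : ∀ x ∈ S, ∀ᶠ i in D, u x i ∈ s i := by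
      rintro (a | j) _
      · filter_upwards [hX (ι a)] with i hi
        simp only [u, s, Sum.elim_inl, inl_mem_disjSum, P, mem_image]
        exact ⟨a, (hact i a).2 hi, rfl⟩
      · exact Eventually.of_forall fun i => by simp [u, s]
    filter_upwards [(eventually_all_finset S).2 h1] with i hi v hv
    rw [mem_image] at hv
    obtain ⟨x, hx, rfl⟩ := hv
    exact hi x hx
  have hune : ∀ x y, x ≠ y → ∀ᶠ i in D, u x i ≠ u y i := by
    rintro (a | j) (b | l) hxy
    · have h1 : cls D (r a) ≠ cls D (r b) := by
        rw [hr, hr]
        intro h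
        exact hxy (by rw [Subtype.ext h])
      filter_upwards [cls_ne h1] with i hi
      simpa [u] using hi
    · exact Eventually.of_forall fun i => by simp [u]
    · exact Eventually.of_forall fun i => by simp [u]
    · exact Eventually.of_forall fun i => by simpa [u] using hxy
  have fact2 := fun S => injOn_ev hune S
  have fact3 : ∀ S : Finset (A ⊕ Fin d), S.card = k + 1 →
      ∀ᶠ i in D, (cone d (E (k := k) (M := M)) (S.image fun x => u x i) ↔ cone d (EA (k := k) A) S) := by
    intro S hS
    by_cases hj : ∃ j, Sum.inr j ∈ S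
    · refine Eventually.of_forall fun i => ?_
      have h1 : ∃ j, Sum.inr j ∈ S.image fun x => u x i := by
        obtain ⟨j, hj⟩ := hj
        exact ⟨j, mem_image.2 ⟨Sum.inr j, hj, rfl⟩⟩
      exact ⟨fun _ => Or.inl hj, fun _ => Or.inl h1⟩
    · have hc : S.toLeft.card = k + 1 := by
        have h1 := card_toLeft_add_card_toRight (u := S)
        have h2 : S.toRight = ∅ := by
          rw [eq_empty_iff_forall_notMem]
          intro j hj'
          exact hj ⟨j, mem_toRight.1 hj'⟩
        rw [h2, Finset.card_empty] at h1
        omega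
      have h3 := E_cls hM hUM r S.toLeft hc
      have h4 : (S.toLeft.image fun a => cls D (r a)) = S.toLeft.image (Subtype.val : A → UPower D M) := by
        apply image_congr
        intro a _
        exact hr a
      rw [h4] at h3
      filter_upwards [ev_iff h3] with i hi
      unfold cone
      have h5 : ¬ ∃ j, Sum.inr j ∈ S.image fun x => u x i := by
        rintro ⟨j, hj'⟩
        rw [mem_image] at hj'
        obtain ⟨x, hx, hxe⟩ := hj'
        rcases x with a | l
        · simp [u] at hxe
        · exact hj ⟨l, hx⟩
      have h6 : (S.image fun x => u x i).toLeft = S.toLeft.image fun a => r a i := by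
        ext v
        simp only [mem_toLeft, mem_image]
        constructor
        · rintro ⟨x, hx, hxe⟩
          rcases x with a | l
          · exact ⟨a, hx, by simpa [u] using hxe⟩
          · simp [u] at hxe
        · rintro ⟨a, ha, rfl⟩
          exact ⟨Sum.inl a, ha, rfl⟩
      rw [h6, hi]
      constructor
      · rintro (h | h)
        · exact absurd h h5
        · exact Or.inr h
      · rintro (h | h)
        · exact absurd h hj
        · exact Or.inr h
  have himg : ∀ (S : Finset (A ⊕ Fin d)) (i : I),
      (S.image fun x => g x i) = (S.image fun x => u x i).image (f i) := by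
    intro S i
    rw [image_image]; rfl
  have fact4 : ∀ S : Finset (A ⊕ Fin d), S.card = k + 1 →
      (E (k := k) (S.image fun x => cls D (g x)) ↔ cone d (EA (k := k) A) S) := by
    intro S hS
    rw [E_cls hN hUN g S hS]
    have h1 : ∀ᶠ i in D, (E (k := k) (S.image fun x => g x i) ↔ cone d (EA (k := k) A) S) := by
      filter_upwards [fact1 S, fact2 S, fact3 S hS] with i h1 h2 h3
      rw [himg, hfE i _ h1 (by rw [card_image_of_injOn h2, hS]), h3]
    constructor
    · intro h
      obtain ⟨i, h2, h3⟩ := (h.and h1).exists
      exact h3.1 h2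
    · intro h
      filter_upwards [h1] with i hi
      exact hi.2 h
  have fact5 : Function.Injective fun x => cls D (g x) := by
    intro x y hxy
    by_contra hne
    have h1 := (cls_eq _ _).1 hxy
    obtain ⟨i, h2, h3, h4⟩ := (h1.and ((hune x y hne).and (fact1 {x, y}))).exists
    apply h3
    apply hfinj i
    · exact h4 (mem_image_of_mem _ (by simp))
    · exact h4 (mem_image_of_mem _ (by simp))
    · exact h2
  -- the type over the cone
  let G : A ⊕ Fin d → UPower D N := fun x => cls D (g x)
  have hGR : ∀ t : Fin k → A ⊕ Fin d, ∀ b : UPower D N,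
      R (Fin.cons b (fun j => G (t j)) : Fin (k + 1) → UPower D N) ↔
        E (k := k) (insert b ((Finset.univ.image t).image G)) := by
    intro t b
    rw [R_iffE hUN, image_cons, image_image]
    rfl
  let A' : Set (UPower D N) := Set.range G
  have hA' : #A' < Order.succ #I := by
    rw [Order.lt_succ_iff]
    refine (Cardinal.mk_range_le).trans ?_
    rw [Cardinal.mk_sum, Cardinal.lift_id, Cardinal.lift_id, Cardinal.mk_fin]
    refine Cardinal.add_le_of_le (Cardinal.aleph0_le_mk I) ⟨ι⟩ ?_
    exact (Cardinal.natCast_lt_aleph0 (n := d)).le.trans (Cardinal.aleph0_le_mk I)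
  let Φ : (Fin k → A ⊕ Fin d) → (L k).Formula (Option A') := fun t =>
    if Fp F (Finset.univ.image t) then
      relF (Fin.cons none fun j => some ⟨G (t j), t j, rfl⟩)
    else ∼(relF (Fin.cons none fun j => some ⟨G (t j), t j, rfl⟩))
  have hΦ : ∀ (t : Fin k → A ⊕ Fin d) (b : UPower D N),
      (Φ t).Realize (fun o => o.elim b (fun a => (a : UPower D N))) ↔
        (E (k := k) (insert b ((Finset.univ.image t).image G)) ↔ Fp F (Finset.univ.image t)) := by
    intro t b
    rw [← hGR]
    have h3 : (fun j => (fun o : Option A' => (o.elim b (fun a => (a : UPower D N)) : UPower D N))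
          ((Fin.cons none (fun j => some ⟨G (t j), t j, rfl⟩) : Fin (k + 1) → Option A') j)) =
          (Fin.cons b (fun j => G (t j)) : Fin (k + 1) → UPower D N) := by
      funext j
      refine Fin.cases ?_ (fun j => ?_) j <;> simp
    simp only [Φ]
    split_ifs with h2
    · rw [realize_relF, h3]
      exact ⟨fun h => ⟨fun _ => h2, fun _ => h⟩, fun h => h.2 h2⟩
    · rw [Formula.realize_not, realize_relF, h3]
      exact ⟨fun h => ⟨fun h' => absurd h' h, fun h' => absurd h' h2⟩, fun h h' => h2 (h.1 h')⟩
  obtain ⟨b, hb⟩ := hsat A' hA' (Φ '' {t | Function.Injective t}) (by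
    intro q hq hqfin
    have h1 : ∀ φ : q, ∃ t, Function.Injective t ∧ Φ t = φ := fun φ => hq φ.2
    choose t ht htφ using h1
    have := hqfin.to_subtype
    have := Fintype.ofFinite q
    let s₀ : Finset (A ⊕ Fin d) := Finset.univ.biUnion fun φ : q => Finset.univ.image (t φ)
    obtain ⟨b, hb, hbE⟩ := hUNe (s₀.image G) (fun S' => Fp F (s₀.filter fun x => G x ∈ S')) (by
      intro K' hK' hn hc
      set K := s₀.filter fun x => G x ∈ K' with hKdef
      have hKim : K.image G = K' := image_filter hK'
      have hKcard : K.card = n + d := by rw [← hn, ← hKim, card_image_of_injective _ fact5]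
      have h1 : K.toRight.card ≤ d := by simpa using card_le_univ K.toRight
      have h2 := card_toLeft_add_card_toRight (u := K)
      obtain ⟨K₀, hK₀, hcard⟩ := exists_subset_card_eq (show n ≤ K.toLeft.card by omega)
      have hsubK : ∀ S ⊆ K₀, S.map Function.Embedding.inl ⊆ K := by
        intro S hS v hv
        simp only [Finset.mem_map, Function.Embedding.inl_apply] at hv
        obtain ⟨a, ha, rfl⟩ := hv
        exact mem_toLeft.1 (hK₀ (hS ha))
      obtain ⟨S, hS, hSk, hSF⟩ := hF K₀ hcard (by
        intro S hS hSk
        have h3 := hc ((S.map Function.Embedding.inl).image G)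
          (by rw [← hKim]; exact image_subset_image (hsubK S hS))
          (by rw [card_image_of_injective _ fact5, card_map, hSk])
        rw [fact4 _ (by rw [card_map, hSk])] at h3
        rcases h3 with ⟨j, hj⟩ | h3
        · simp at hj
        · have : (S.map (Function.Embedding.inl : A ↪ A ⊕ Fin d)).toLeft = S := by
            ext v; simp
          rwa [this] at h3)
      refine ⟨(S.map Function.Embedding.inl).image G, ?_, ?_, ?_⟩
      · rw [← hKim]; exact image_subset_image (hsubK S hS)
      · rw [card_image_of_injective _ fact5, card_map, hSk]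
      · have h4 : (s₀.filter fun x => G x ∈ (S.map Function.Embedding.inl).image G) =
            S.map Function.Embedding.inl :=
          filter_image (fact5.injOn) ((hsubK S hS).trans (filter_subset _ _))
        simp only [h4]
        rw [Fp_map]
        exact hSF)
    refine ⟨b, fun φ hφ => ?_⟩
    have h6 := htφ ⟨φ, hφ⟩
    simp only at h6
    rw [← h6, hΦ]
    have h5 : Finset.univ.image (t ⟨φ, hφ⟩) ⊆ s₀ := by
      intro v hv
      rw [mem_biUnion]
      exact ⟨⟨φ, hφ⟩, mem_univ _, hv⟩
    rw [hbE _ (image_subset_image h5) (by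
      rw [card_image_of_injective _ fact5, card_image_of_injective _ (ht _)]; simp)]
    rw [filter_image fact5.injOn h5])
  have hb' : ∀ S : Finset (A ⊕ Fin d), S.card = k →
      (E (k := k) (insert b (S.image G)) ↔ Fp F S) := by
    intro S hS
    obtain ⟨t, ht, rfl⟩ := exists_enum hS
    exact (hΦ t b).1 (hb _ ⟨t, ht, rfl⟩)
  obtain ⟨rb, rfl⟩ := cls_surj b
  have hbi : ∀ S : Finset (A ⊕ Fin d), S.card = k →
      ∀ᶠ i in D, (E (k := k) (insert (rb i) (S.image fun x => g x i)) ↔ Fp F S) := by
    intro S hS
    have h0 := hb' S hS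
    obtain ⟨t, ht, rfl⟩ := exists_enum hS
    rw [← hGR] at h0
    have h1 : (Fin.cons (cls D rb) (fun j => G (t j)) : Fin (k + 1) → UPower D N) =
        fun j => cls D ((Fin.cons rb (fun j => g (t j)) : Fin (k + 1) → I → N) j) := by
      funext j
      refine Fin.cases ?_ (fun j => ?_) j <;> rfl
    rw [h1, R_cls] at h0
    filter_upwards [ev_iff h0.symm] with i hi
    rw [← hi, R_iffE hN]
    have h2 : (fun j => (Fin.cons rb (fun j => g (t j)) : Fin (k + 1) → I → N) j i) =
        (Fin.cons (rb i) (fun j => g (t j) i) : Fin (k + 1) → N) := by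
      funext j
      refine Fin.cases ?_ (fun j => ?_) j <;> rfl
    rw [h2, image_cons, image_image]
    rfl
  let dd : Finset A → Set I := fun S => {i | S ⊆ act i ∧
    ∀ T ∈ powersetCard k (S.disjSum (Finset.univ : Finset (Fin d))),
      (E (k := k) (insert (rb i) (T.image fun x => g x i)) ↔ Fp F T)}
  have hdd : ∀ S : Finset A, ∀ᶠ i in D, i ∈ dd S := by
    intro S
    have h1 : ∀ᶠ i in D, ∀ a ∈ S, a ∈ act i := by
      rw [eventually_all_finset]
      intro a _
      filter_upwards [hX (ι a)] with i hi
      exact (hact i a).2 hi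
    have h2 : ∀ᶠ i in D, ∀ T ∈ powersetCard k (S.disjSum (Finset.univ : Finset (Fin d))),
        (E (k := k) (insert (rb i) (T.image fun x => g x i)) ↔ Fp F T) := by
      rw [eventually_all_finset]
      intro T hT
      exact hbi T (mem_powersetCard.1 hT).2
    filter_upwards [h1, h2] with i h3 h4
    exact ⟨h3, h4⟩
  have hFi : ∀ i, ∃ β, β ∉ P i ∧ ∀ S ⊆ P i, S.card = k → (E (k := k) (insert β S) ↔
      ∃ S₁ : Finset A, F S₁ ∧ S₁.card = k ∧ i ∈ dd S₁ ∧ (S₁.image fun a => r a i) = S) := by
    intro i
    apply hMe (P i) (fun S => ∃ S₁ : Finset A, F S₁ ∧ S₁.card = k ∧ i ∈ dd S₁ ∧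
      (S₁.image fun a => r a i) = S)
    intro K hK hKn hKc
    by_contra hcon
    push Not at hcon
    have hcon' : ∀ S ⊆ K, S.card = k → ∃ S₁ : Finset A, F S₁ ∧ S₁.card = k ∧ i ∈ dd S₁ ∧
      (S₁.image fun a => r a i) = S := by
      intro S h1 h2
      obtain ⟨S₁, h3, h4, h5, h6⟩ := hcon S h1 h2
      exact ⟨S₁, h3, h4, h5, h6⟩
    let Q : Finset (M ⊕ Fin d) := K.disjSum Finset.univ
    have hQs : Q ⊆ s i := disjSum_mono hK (subset_refl _)
    have hQinj : Set.InjOn (f i) Q := (hfinj i).mono (by exact_mod_cast hQs)
    have hQcard : Q.card = n + d := by simp [Q, hKn]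
    have key : ∀ T₀ ⊆ Q, T₀.card = k → E (k := k) (insert (rb i) (T₀.image (f i))) := by
      intro T₀ hT₀ hcard
      have hcc := card_toLeft_add_card_toRight (u := T₀)
      have hTK : T₀.toLeft ⊆ K := by
        intro v hv
        have := hT₀ (mem_toLeft.1 hv)
        simpa [Q] using this
      obtain ⟨S, hTS, hSK, hSk⟩ := exists_subsuperset_card_eq hTK (n := k) (by omega) (by omega)
      obtain ⟨S₁, hFS, hS₁k, hi, hS₁⟩ := hcon' S hSK hSk
      have hinj : Set.InjOn (fun a => r a i) S₁ := by
        apply Finset.card_image_iff.1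
        rw [hS₁, hSk, hS₁k]
      let T : Finset (A ⊕ Fin d) := (S₁.filter fun a => r a i ∈ T₀.toLeft).disjSum T₀.toRight
      have hTim : (S₁.filter fun a => r a i ∈ T₀.toLeft).image (fun a => r a i) = T₀.toLeft :=
        image_filter (by rw [hS₁]; exact hTS)
      have hTl : (S₁.filter fun a => r a i ∈ T₀.toLeft).card = T₀.toLeft.card := by
        rw [← hTim, card_image_of_injOn (hinj.mono (by exact_mod_cast filter_subset _ _)), hTim]
      have hTk : T.card = k := by
        simp only [T, card_disjSum, hTl]
        omega
      have h1 := hi.2 T (mem_powersetCard.2 ⟨disjSum_mono (filter_subset _ _) (subset_univ _), hTk⟩)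
      have h2 : Fp F T := by
        by_cases hj : ∃ j, Sum.inr j ∈ T
        · exact Or.inl hj
        · right
          have h3 : T₀.toRight = ∅ := by
            rw [eq_empty_iff_forall_notMem]
            intro j hj'
            exact hj ⟨j, by simpa [T] using hj'⟩
          have h4 : T.toLeft = S₁.filter fun a => r a i ∈ T₀.toLeft := by
            ext v; simp [T]
          have h5 : (S₁.filter fun a => r a i ∈ T₀.toLeft) = S₁ := by
            apply eq_of_subset_of_card_le (filter_subset _ _)
            rw [hTl, hS₁k]
            rw [h3, Finset.card_empty] at hcc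
            omega
          rw [h4, h5]
          exact hFS
      have h3 := h1.2 h2
      have h4 : (T.image fun x => u x i) = T₀ := by
        ext v
        rw [mem_image]
        constructor
        · rintro ⟨x, hx, rfl⟩
          rcases x with a | l
          · simp only [T, inl_mem_disjSum, mem_filter] at hx
            exact mem_toLeft.1 hx.2
          · simp only [T, inr_mem_disjSum] at hx
            exact mem_toRight.1 hx
        · intro hv
          rcases v with a | l
          · rw [← mem_toLeft, ← hTim, mem_image] at hv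
            obtain ⟨c, hc, rfl⟩ := hv
            exact ⟨Sum.inl c, by simpa [T] using hc, rfl⟩
          · exact ⟨Sum.inr l, by simpa [T] using hv, rfl⟩
      rw [himg, h4] at h3
      exact h3
    have hrbQ : rb i ∉ Q.image (f i) := by
      intro h
      rw [mem_image] at h
      obtain ⟨v, hv, hve⟩ := h
      obtain ⟨T₀, h1, h2, h3⟩ := exists_subsuperset_card_eq (s := {v}) (t := Q) (n := k)
        (by simpa using hv) (by simpa using hk) (by omega)
      have h4 := key T₀ h2 h3
      have h5 : rb i ∈ T₀.image (f i) := mem_image.2 ⟨v, h1 (by simp), hve⟩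
      rw [insert_eq_of_mem h5] at h4
      have h6 := E_card hN h4
      have h7 : (T₀.image (f i)).card ≤ T₀.card := card_image_le
      omega
    refine E_fr hN (insert (rb i) (Q.image (f i))) ?_ ?_
    · rw [card_insert_of_notMem hrbQ, card_image_of_injOn hQinj, hQcard]
    · intro W hW hWk
      by_cases hrW : rb i ∈ W
      · have h1 : W.erase (rb i) ⊆ Q.image (f i) := by
          intro v hv
          rw [mem_erase] at hv
          exact (mem_insert.1 (hW hv.2)).resolve_left hv.1
        have h2 := image_filter h1
        have h3 : (Q.filter fun v => f i v ∈ W.erase (rb i)).card = k := by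
          have h4 := congrArg Finset.card h2
          rw [card_image_of_injOn (hQinj.mono (by exact_mod_cast filter_subset _ _)),
            card_erase_of_mem hrW, hWk] at h4
          simpa using h4
        have h5 := key _ (filter_subset _ _) h3
        rw [h2, insert_erase hrW] at h5
        exact h5
      · have h1 : W ⊆ Q.image (f i) := by
          intro v hv
          refine (mem_insert.1 (hW hv)).resolve_left ?_
          rintro rfl; exact hrW hv
        have h2 := image_filter h1
        have h3 : (Q.filter fun v => f i v ∈ W).card = k + 1 := by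
          have h4 := congrArg Finset.card h2
          rw [card_image_of_injOn (hQinj.mono (by exact_mod_cast filter_subset _ _)), hWk] at h4
          exact h4
        rw [← h2, hfE i _ ((filter_subset _ _).trans hQs) h3]
        by_cases hj : ∃ j, Sum.inr j ∈ Q.filter fun v => f i v ∈ W
        · exact Or.inl hj
        · right
          have h5 := card_toLeft_add_card_toRight (u := Q.filter fun v => f i v ∈ W)
          have h6 : (Q.filter fun v => f i v ∈ W).toRight = ∅ := by
            rw [eq_empty_iff_forall_notMem]
            intro j hj'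
            exact hj ⟨j, mem_toRight.1 hj'⟩
          rw [h6, Finset.card_empty] at h5
          apply hKc
          · intro v hv
            have := (mem_filter.1 (mem_toLeft.1 hv)).1
            simpa [Q] using this
          · omega
  choose β hβ hβE using hFi
  refine ⟨cls D β, ?_, ?_⟩
  · intro hA1
    have h1 := hr ⟨cls D β, hA1⟩
    have h2 := (cls_eq _ _).1 h1
    obtain ⟨i, h3, h4⟩ := (h2.and (hX (ι ⟨cls D β, hA1⟩))).exists
    apply hβ i
    rw [← h3]
    exact mem_image.2 ⟨_, (hact i _).2 h4, rfl⟩
  · intro S hS
    have h1 := E_cls (D := D) hM hUM (fun o : Option A => o.elim β r) (insertNone S)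
      (by rw [card_insertNone, hS])
    have h2 : ((insertNone S).image fun a => cls D ((fun o : Option A => o.elim β r) a)) =
        insert (cls D β) (S.image (Subtype.val : A → UPower D M)) := by
      ext v
      simp only [mem_image, mem_insert]
      constructor
      · rintro ⟨o, ho, rfl⟩
        rcases o with _ | a
        · exact Or.inl rfl
        · exact Or.inr ⟨a, by simpa using ho, (hr a).symm⟩
      · rintro (rfl | ⟨a, ha, rfl⟩)
        · exact ⟨none, by simp, rfl⟩
        · exact ⟨some a, by simpa using ha, hr a⟩
    have h3 : ∀ i, ((insertNone S).image fun a => (fun o : Option A => o.elim β r) a i) =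
        insert (β i) (S.image fun a => r a i) := by
      intro i
      ext v
      simp only [mem_image, mem_insert]
      constructor
      · rintro ⟨o, ho, rfl⟩
        rcases o with _ | a
        · exact Or.inl rfl
        · exact Or.inr ⟨a, by simpa using ho, rfl⟩
      · rintro (rfl | ⟨a, ha, rfl⟩)
        · exact ⟨none, by simp, rfl⟩
        · exact ⟨some a, by simpa using ha, rfl⟩
    rw [h2] at h1
    rw [h1]
    simp only [h3]
    have hrinj : ∀ᶠ i in D, Set.InjOn (fun a => r a i) S := by
      apply injOn_ev (u := r)
      intro x y hxy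
      apply cls_ne
      rw [hr, hr]
      intro h
      exact hxy (Subtype.ext h)
    have hall : ∀ᶠ i in D, (E (k := k) (insert (β i) (S.image fun a => r a i)) ↔ F S) := by
      filter_upwards [hdd S, hrinj] with i hi hinj
      rw [hβE i _ (image_subset_image hi.1) (by rw [card_image_of_injOn hinj, hS])]
      constructor
      · rintro ⟨S₁, hFS, hS₁k, hi₁, hS₁⟩
        have h4 := (hi₁.2 (S₁.map Function.Embedding.inl) (mem_powersetCard.2 ⟨?_, ?_⟩)).2
          ((Fp_map F S₁).2 hFS)
        · have h5 := hi.2 (S.map Function.Embedding.inl) (mem_powersetCard.2 ⟨?_, ?_⟩)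
          · rw [Fp_map] at h5
            rw [← h5]
            have h6 : ∀ S' : Finset A, ((S'.map (Function.Embedding.inl : A ↪ A ⊕ Fin d)).image
                fun x => g x i) = (S'.image fun a => r a i).image fun v => f i (Sum.inl v) := by
              intro S'
              rw [map_eq_image, image_image, image_image]
              rfl
            rw [h6] at h4 ⊢
            rw [← hS₁]
            exact h4
          · intro v hv
            simp only [Finset.mem_map, Function.Embedding.inl_apply] at hv
            obtain ⟨a, ha, rfl⟩ := hv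
            simpa using ha
          · rw [card_map, hS]
        · intro v hv
          simp only [Finset.mem_map, Function.Embedding.inl_apply] at hv
          obtain ⟨a, ha, rfl⟩ := hv
          simpa using ha
        · rw [card_map, hS₁k]
      · intro hFS
        exact ⟨S, hFS, hS, hi, rfl⟩
    constructor
    · intro h
      obtain ⟨i, h5, h6⟩ := (h.and hall).exists
      exact h6.1 h5
    · intro h
      filter_upwards [hall] with i hi
      exact hi.2 h

end Pool.Agent.U638.KO
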