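import Pool.Agent.U638.KO.Main1

/-! # Saturation -/

set_option autoImplicit false

namespace Pool.Agent.U638.KO

open FirstOrder FirstOrder.Language Filter Finset Classical Cardinal

theorem upower_models {k : ℕ} {M I : Type} [(L k).Structure M] [Nonempty M] {D : Ultrafilter I}
    {T : (L k).Theory} (h : M ⊨ T) : UPower D M ⊨ T := by
  constructor
  intro φ hφ
  rw [Ultraproduct.sentence_realize]
  exact Eventually.of_forall fun _ => h.realize_of_mem φ hφ

theorem realize_cls {k : ℕ} {M I α : Type} [(L k).Structure M] [Nonempty M] {D : Ultrafilter I}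
    (φ : (L k).Formula α) (x : α → I → M) :
    φ.Realize (fun a => cls D (x a)) ↔ ∀ᶠ i in D, φ.Realize fun a => x a i :=
  Ultraproduct.realize_formula_cast (M := fun _ : I => M) φ x

theorem nonempty_of_isT {n k : ℕ} (hk : 1 ≤ k) (hkn : k < n) {T : (L k).Theory} (hT : IsT n k T)
    {M : Type} [(L k).Structure M] (hM : M ⊨ T) : Nonempty M := by
  obtain ⟨b, -⟩ := ext_of_isT hk hkn hT M hM ∅ (fun _ => False) (by
    intro K hK hn
    rw [subset_empty.1 hK, Finset.card_empty] at hn
    omega)
  exact ⟨b⟩

theorem saturated {n k d : ℕ} (hk : 1 ≤ k) (hkn : k < n) {T T' : (L k).Theory}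
    (hT : IsT n k T) (hT' : IsT (n + d) k T') {M N I : Type} [(L k).Structure M]
    [(L k).Structure N] [Infinite I] {D : Ultrafilter I} (hM : M ⊨ T) (hN : N ⊨ T')
    (hreg : Regular D) (hsat : Saturated (L k) (Order.succ #I) (UPower D N)) :
    Saturated (L k) (Order.succ #I) (UPower D M) := by
  have hneM : Nonempty M := nonempty_of_isT hk hkn hT hM
  have hneN : Nonempty N := nonempty_of_isT hk (by omega) hT' hN
  have hUM := upower_models (D := D) hM
  have hUN := upower_models (D := D) hN
  have hneUM : Nonempty (UPower D M) := nonempty_of_isT hk hkn hT hUM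
  have iM := hT.models _ hM
  have iN := hT'.models _ hN
  have iUM := hT.models _ hUM
  have iUN := hT'.models _ hUN
  have eM := ext_of_isT hk hkn hT _ hM
  have eN := ext_of_isT hk (by omega) hT' _ hN
  have eUN := ext_of_isT hk (by omega) hT' _ hUN
  intro A hA p hp
  rw [Order.lt_succ_iff] at hA
  have hch : ∀ s : Finset p, ∃ b : UPower D M, ∀ φ ∈ s,
      (φ : (L k).Formula (Option A)).Realize (fun o => o.elim b (fun a => (a : UPower D M))) := by
    intro s
    obtain ⟨b, hb⟩ := hp (Subtype.val '' (s : Set p)) (by rintro _ ⟨φ, -, rfl⟩; exact φ.2)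
      (s.finite_toSet.image _)
    exact ⟨b, fun φ hφ => hb _ ⟨φ, hφ, rfl⟩⟩
  choose b hb using hch
  let U : Ultrafilter (Finset p) := Ultrafilter.of atTop
  have hU : ∀ φ : p, ∀ᶠ s : Finset p in (U : Filter (Finset p)), φ ∈ s := by
    intro φ
    have h1 : ∀ᶠ s : Finset p in atTop, φ ∈ s := by
      filter_upwards [eventually_ge_atTop {φ}] with s hs
      exact hs (by simp)
    exact Ultrafilter.of_le atTop h1
  have hU2 := upower_models (D := U) hUM
  have iU2 := hT.models _ hU2
  let star : UPower D M → UPower U (UPower D M) := fun a => cls U fun _ => a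
  have hstar : Function.Injective star := by
    intro x y hxy
    obtain ⟨_, h⟩ := ((cls_eq _ _).1 hxy).exists
    exact h
  let bs : UPower U (UPower D M) := cls U b
  let sA : A → UPower U (UPower D M) := fun a => star (a : UPower D M)
  have hreal : ∀ φ ∈ p, φ.Realize (fun o : Option A => (o.elim bs (fun a => star a) :
      UPower U (UPower D M))) := by
    intro φ hφ
    have h1 : (fun o : Option A => (o.elim bs (fun a => star a) : UPower U (UPower D M))) =
        fun o => cls U ((fun o : Option A => o.elim b (fun a _ => (a : UPower D M))) o) := by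
      funext o
      cases o <;> rfl
    rw [h1, realize_cls]
    filter_upwards [hU ⟨φ, hφ⟩] with s hs
    have h2 := hb s ⟨φ, hφ⟩ hs
    convert h2 using 1
    funext o
    cases o <;> rfl
  by_cases hc : ∃ a ∈ A, bs = star a
  · obtain ⟨a, ha, hba⟩ := hc
    refine ⟨a, fun φ hφ => ?_⟩
    have h1 := (cls_eq _ _).1 hba
    obtain ⟨s, h2, h3⟩ := (h1.and (hU ⟨φ, hφ⟩)).exists
    have h4 := hb s ⟨φ, hφ⟩ h3
    rw [h2] at h4
    exact h4
  push Not at hc
  have hedge : ∀ S : Finset A, S.card = k + 1 →
      (E (k := k) (S.image sA) ↔ EA (k := k) A S) := by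
    intro S hS
    have h1 := E_cls (D := U) iUM iU2 (fun (a : A) _ => (a : UPower D M)) S hS
    rw [eventually_const] at h1
    exact h1
  have hbS : ∀ S : Finset A, bs ∉ S.image sA := by
    intro S h
    rw [mem_image] at h
    obtain ⟨a, -, h⟩ := h
    exact hc a a.2 h.symm
  have hstarA : Function.Injective sA := hstar.comp Subtype.val_injective
  obtain ⟨c, hcA, hcE⟩ := realize_qf hk hkn iM eM iN eN iUM iUN eUN hreg hsat A hA
    (fun S => E (k := k) (insert bs (S.image sA))) (by
      intro K hK hKc
      by_contra hcon
      push Not at hcon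
      refine E_fr iU2 (insert bs (K.image sA)) ?_ ?_
      · rw [card_insert_of_notMem (hbS K), card_image_of_injective _ hstarA, hK]
      · intro W hW hWk
        by_cases hrW : bs ∈ W
        · have h1 : W.erase bs ⊆ K.image sA := by
            intro v hv
            rw [mem_erase] at hv
            exact (mem_insert.1 (hW hv.2)).resolve_left hv.1
          have h2 := image_filter h1
          have h3 := hcon (K.filter fun v => sA v ∈ W.erase bs) (filter_subset _ _) (by
            have h4 := congrArg Finset.card h2
            rw [card_image_of_injective _ hstarA, card_erase_of_mem hrW, hWk] at h4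
            simpa using h4)
          rw [h2, insert_erase hrW] at h3
          exact h3
        · have h1 : W ⊆ K.image sA := by
            intro v hv
            refine (mem_insert.1 (hW hv)).resolve_left ?_
            rintro rfl; exact hrW hv
          have h2 := image_filter h1
          have h3 : (K.filter fun v => sA v ∈ W).card = k + 1 := by
            have h4 := congrArg Finset.card h2
            rw [card_image_of_injective _ hstarA, hWk] at h4
            exact h4
          rw [← h2, hedge _ h3]
          exact hKc _ (filter_subset _ _) h3)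
  refine ⟨c, fun φ hφ => ?_⟩
  -- the two embeddings
  let v₁ : Option A → UPower D M := fun o => o.elim c (fun a => (a : UPower D M))
  let v₂ : Option A → UPower U (UPower D M) := fun o => o.elim bs (fun a => star a)
  have hv₁ : Function.Injective v₁ := by
    rintro (_ | a) (_ | a') h
    · rfl
    · exact absurd (show c ∈ A by
        have : c = a' := h
        rw [this]; exact a'.2) hcA
    · exact absurd (show c ∈ A by
        have : (a : UPower D M) = c := h
        rw [← this]; exact a.2) hcA
    · exact congrArg some (Subtype.ext h)
  have hv₂ : Function.Injective v₂ := by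
    rintro (_ | a) (_ | a') h
    · rfl
    · exact absurd h (hc a' a'.2)
    · exact absurd h.symm (hc a a.2)
    · exact congrArg some (hstarA h)
  have hEE : ∀ S : Finset (Option A), S.card = k + 1 →
      (E (k := k) (S.image v₂) ↔ E (k := k) (S.image v₁)) := by
    intro S hS
    by_cases hnone : none ∈ S
    · have h1 : (S.image v₁) = insert c (S.eraseNone.image (Subtype.val : A → UPower D M)) := by
        ext v
        simp only [mem_image, mem_insert, mem_eraseNone]
        constructor
        · rintro ⟨(_ | a), ho, rfl⟩
          · exact Or.inl rfl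
          · exact Or.inr ⟨a, ho, rfl⟩
        · rintro (rfl | ⟨a, ha, rfl⟩)
          · exact ⟨none, hnone, rfl⟩
          · exact ⟨some a, ha, rfl⟩
      have h2 : (S.image v₂) = insert bs (S.eraseNone.image sA) := by
        ext v
        simp only [mem_image, mem_insert, mem_eraseNone]
        constructor
        · rintro ⟨(_ | a), ho, rfl⟩
          · exact Or.inl rfl
          · exact Or.inr ⟨a, ho, rfl⟩
        · rintro (rfl | ⟨a, ha, rfl⟩)
          · exact ⟨none, hnone, rfl⟩
          · exact ⟨some a, ha, rfl⟩
      have h3 : S.eraseNone.card = k := by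
        have h4 : insertNone S.eraseNone = S := by
          ext o
          cases o with
          | none => simp [hnone]
          | some a => simp
        have h5 := congrArg Finset.card h4
        rw [card_insertNone, hS] at h5
        omega
      rw [h1, h2, hcE _ h3]
    · have h1 : (S.image v₁) = S.eraseNone.image (Subtype.val : A → UPower D M) := by
        ext v
        simp only [mem_image, mem_eraseNone]
        constructor
        · rintro ⟨(_ | a), ho, rfl⟩
          · exact absurd ho hnone
          · exact ⟨a, ho, rfl⟩
        · rintro ⟨a, ha, rfl⟩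
          exact ⟨some a, ha, rfl⟩
      have h2 : (S.image v₂) = S.eraseNone.image sA := by
        ext v
        simp only [mem_image, mem_eraseNone]
        constructor
        · rintro ⟨(_ | a), ho, rfl⟩
          · exact absurd ho hnone
          · exact ⟨a, ho, rfl⟩
        · rintro ⟨a, ha, rfl⟩
          exact ⟨some a, ha, rfl⟩
      have h3 : S.eraseNone.card = k + 1 := by
        have h4 : S.eraseNone.map Function.Embedding.some = S := by
          ext o
          cases o with
          | none => simp [hnone]
          | some a => simp
        have h5 := congrArg Finset.card h4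
        rw [card_map, hS] at h5
        exact h5
      rw [h1, h2, hedge _ h3]
      rfl
  have hRR : ∀ x : Fin (k + 1) → Option A, R (k := k) (v₂ ∘ x) ↔ R (k := k) (v₁ ∘ x) := by
    intro x
    rw [R_iffE iU2, R_iffE iUM]
    by_cases hx : Function.Injective x
    · have h1 := hEE (Finset.univ.image x) (by rw [card_image_of_injective _ hx]; simp)
      rw [image_image, image_image] at h1
      exact h1
    · constructor
      · intro h
        exact absurd (inj_of_card (by simp) (E_card iU2 h) : Function.Injective (v₂ ∘ x)).of_comp hx
      · intro h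
        exact absurd (inj_of_card (by simp) (E_card iUM h) : Function.Injective (v₁ ∘ x)).of_comp hx
  let inst : (L k).Structure (Option A) :=
    { funMap := fun f => nomatch f
      RelMap := fun r x => Structure.RelMap r (v₁ ∘ x) }
  let f₁ : Option A ↪[L k] UPower D M :=
    { toFun := v₁
      inj' := hv₁
      map_fun' := fun f => nomatch f
      map_rel' := fun r x => Iff.rfl }
  let f₂ : Option A ↪[L k] UPower U (UPower D M) :=
    { toFun := v₂
      inj' := hv₂
      map_fun' := fun f => nomatch f
      map_rel' := by
        intro m r x
        cases r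
        exact hRR x }
  exact (hT.complete (Option A) _ _ (iUM.of_embedding f₁) hUM hU2 f₁ f₂ φ).2 (hreal φ hφ)

theorem main {n k d : ℕ} (hk : 1 ≤ k) (hkn : k < n) {T T' : (L k).Theory}
    (hT : IsT n k T) (hT' : IsT (n + d) k T') : KeislerLE (L k) (L k) T T' := by
  intro I hI D hD hgood
  obtain ⟨N, instN, neN, hN, hsat⟩ := hgood
  obtain ⟨M, instM, hM, -⟩ := @IsT.extend n k T hT Empty (ofE k fun _ => False) (ofE_isHyp (by
    intro K hK
    rw [eq_empty_of_isEmpty K, Finset.card_empty] at hK
    omega))
  exact ⟨M, instM, nonempty_of_isT hk hkn hT hM, hM, saturated hk hkn hT hT' hM hN hD hsat⟩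

end Pool.Agent.U638.KO
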