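import Pool.Agent.U638.KO.Defs
import Pool.Agent.U638.KO.Comb

/-! # The hypergraph of a structure -/

set_option autoImplicit false

namespace Pool.Agent.U638.KO

open FirstOrder FirstOrder.Language Filter Finset Classical

variable {n k : ℕ} {M : Type} [(L k).Structure M]

/-- the set of edges -/
def E {k : ℕ} {M : Type} [(L k).Structure M] (S : Finset M) : Prop :=
  ∃ x : Fin (k + 1) → M, R x ∧ Finset.univ.image x = S

theorem E_card (h : IsHyp n k M) {S : Finset M} (hS : E (k := k) S) : S.card = k + 1 := by
  obtain ⟨x, hx, rfl⟩ := hS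
  rw [card_image_of_injective _ (h.irrefl x hx)]
  simp

theorem R_iff (h : IsHyp n k M) (x : Fin (k + 1) → M) :
    R x ↔ Function.Injective x ∧ E (k := k) (Finset.univ.image x) := by
  constructor
  · intro hx
    exact ⟨h.irrefl x hx, x, hx, rfl⟩
  · rintro ⟨hx, y, hy, he⟩
    have hyi := h.irrefl y hy
    have hr : Set.range x = Set.range y := by
      have := congrArg (fun s : Finset M => (s : Set M)) he
      simpa using this.symm
    let σ : Equiv.Perm (Fin (k + 1)) :=
      (Equiv.ofInjective x hx).trans ((Equiv.setCongr hr).trans (Equiv.ofInjective y hyi).symm)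
    have h1 : y ∘ σ = x := by
      funext j
      have h2 : (Equiv.ofInjective y hyi) (σ j) = (Equiv.setCongr hr) (Equiv.ofInjective x hx j) := by
        simp [σ]
      have h3 := congrArg Subtype.val h2
      simpa using h3
    rw [← h1]
    exact h.symm y σ hy

theorem exists_enum {V : Type} [DecidableEq V] {m : ℕ} {S : Finset V} (hS : S.card = m) :
    ∃ x : Fin m → V, Function.Injective x ∧ Finset.univ.image x = S := by
  refine ⟨fun j => ((S.equivFinOfCardEq hS).symm j : V), ?_, ?_⟩
  · exact Subtype.val_injective.comp (Equiv.injective _)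
  · ext v
    simp only [mem_image, mem_univ, true_and]
    constructor
    · rintro ⟨j, rfl⟩; exact Subtype.property _
    · intro hv
      exact ⟨S.equivFinOfCardEq hS ⟨v, hv⟩, by simp⟩

theorem E_fr (h : IsHyp n k M) : Fr n k (E (k := k) (M := M)) := by
  intro K hK hc
  obtain ⟨y, hy, rfl⟩ := exists_enum hK
  refine h.free ⟨y, hy, fun e he => ?_⟩
  rw [R_iff h]
  refine ⟨hy.comp he, hc _ ?_ ?_⟩
  · intro v hv
    rw [mem_image] at hv ⊢
    obtain ⟨j, -, rfl⟩ := hv
    exact ⟨e j, mem_univ _, rfl⟩
  · rw [card_image_of_injective _ (hy.comp he)]; simp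

theorem isHyp_of (symm : ∀ (x : Fin (k + 1) → M) (σ : Equiv.Perm (Fin (k + 1))), R x → R (x ∘ σ))
    (irrefl : ∀ x : Fin (k + 1) → M, R x → Function.Injective x)
    (h : Fr n k (E (k := k) (M := M))) : IsHyp n k M := by
  refine ⟨symm, irrefl, ?_⟩
  rintro ⟨y, hy, hR⟩
  refine h (Finset.univ.image y) (by rw [card_image_of_injective _ hy]; simp) ?_
  intro S hS hcard
  obtain ⟨x, hx, rfl⟩ := exists_enum hcard
  have h1 : ∀ j, ∃ i, y i = x j := by
    intro j
    have := hS (mem_image_of_mem x (mem_univ j))
    simpa using this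
  choose e he using h1
  refine ⟨x, ?_, rfl⟩
  have h2 : y ∘ e = x := funext he
  rw [← h2]
  apply hR
  intro a b hab
  apply hx
  rw [← he, ← he, hab]

theorem R_map {N : Type} [(L k).Structure N] (f : M ↪[L k] N) (x : Fin (k + 1) → M) :
    R (f ∘ x) ↔ R x := f.map_rel _ x

theorem E_map {N : Type} [(L k).Structure N] (f : M ↪[L k] N) (S : Finset M) :
    E (k := k) (S.image f) ↔ E (k := k) S := by
  constructor
  · rintro ⟨y, hy, hyS⟩
    have h1 : ∀ j, ∃ a ∈ S, f a = y j := by
      intro j
      have : y j ∈ S.image f := by rw [← hyS]; exact mem_image_of_mem y (mem_univ j)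
      simpa using this
    choose x hxS hx using h1
    refine ⟨x, ?_, ?_⟩
    · rw [← R_map f]
      have : f ∘ x = y := funext hx
      rwa [this]
    · have h2 : (Finset.univ.image x).image f = S.image f := by
        rw [← hyS, image_image]
        congr 1
        exact funext hx
      exact Finset.image_injective f.injective h2
  · rintro ⟨x, hx, rfl⟩
    refine ⟨f ∘ x, (R_map f x).2 hx, by rw [image_image]⟩

/-- substructures of hypergraphs -/
theorem IsHyp.of_embedding {N : Type} [(L k).Structure N] (h : IsHyp n k N) (f : M ↪[L k] N) :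
    IsHyp n k M := by
  refine ⟨fun x σ hx => ?_, fun x hx => ?_, ?_⟩
  · rw [← R_map f] at hx ⊢
    exact h.symm _ σ hx
  · rw [← R_map f] at hx
    exact (h.irrefl _ hx).of_comp
  · rintro ⟨y, hy, hR⟩
    refine h.free ⟨f ∘ y, f.injective.comp hy, fun e he => ?_⟩
    have := hR e he
    rw [← R_map f] at this
    exact this

/-! ## Ultrapowers -/

variable {I : Type} {D : Ultrafilter I}

/-- the class of a function -/
def cls {M : Type} (D : Ultrafilter I) (x : I → M) : UPower D M :=
  @Quotient.mk' _ ((D : Filter I).productSetoid fun _ : I => M) x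

theorem cls_surj {M : Type} (a : UPower D M) : ∃ x : I → M, cls D x = a := Quotient.exists_rep a

theorem cls_eq {M : Type} (x y : I → M) : cls D x = cls D y ↔ ∀ᶠ i in D, x i = y i :=
  Quotient.eq''

theorem R_cls (x : Fin (k + 1) → I → M) :
    R (k := k) (fun j => cls D (x j)) ↔ ∀ᶠ i in D, R (k := k) (fun j => x j i) :=
  @relMap_quotient_mk' (L k) _ _ (Ultraproduct.setoidPrestructure (fun _ : I => M) D) _
    HRel.edge x

theorem inj_of_card {α β : Type} [Fintype α] {f : α → β} {m : ℕ} (hα : Fintype.card α = m)
    (h : (Finset.univ.image f).card = m) : Function.Injective f := by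
  have h1 : (Finset.univ.image f).card = (Finset.univ : Finset α).card := by rw [h, card_univ, hα]
  intro a b hab
  exact Finset.card_image_iff.1 h1 (by simp) (by simp) hab

theorem E_cls {ι : Type} (h : IsHyp n k M) (hU : IsHyp n k (UPower D M)) (r : ι → I → M)
    (S : Finset ι) (hS : S.card = k + 1) :
    E (k := k) (S.image fun a => cls D (r a)) ↔ ∀ᶠ i in D, E (k := k) (S.image fun a => r a i) := by
  obtain ⟨x, hx, rfl⟩ := exists_enum hS
  constructor
  · intro hE
    have hc := E_card hU hE
    rw [image_image] at hE hc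
    have hinj : Function.Injective ((fun a => cls D (r a)) ∘ x) := inj_of_card (by simp) hc
    have := (R_iff hU _).2 ⟨hinj, hE⟩
    have h2 := (R_cls (D := D) (fun j => r (x j))).1 this
    filter_upwards [h2] with i hi
    rw [image_image]
    exact ((R_iff h _).1 hi).2
  · intro hE
    have h1 : ∀ᶠ i in D, R (k := k) (fun j => r (x j) i) := by
      filter_upwards [hE] with i hi
      have hc := E_card h hi
      rw [image_image] at hi hc
      exact (R_iff h _).2 ⟨inj_of_card (by simp) hc, hi⟩
    have h2 := (R_cls (D := D) (fun j => r (x j))).2 h1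
    rw [image_image]
    exact ((R_iff hU _).1 h2).2

end Pool.Agent.U638.KO
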