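import Pool.Agent.U638.KO.Gen

/-! # The axioms of the generic hypergraphs -/

set_option autoImplicit false

namespace Pool.Agent.U638.KO

open FirstOrder FirstOrder.Language Filter Finset Classical

/-- the theory of the countable generic hypergraph -/
def Tgen (n k : ℕ) : (L k).Theory := (L k).completeTheory (Gen n k)

theorem transfer {n k : ℕ} {M : Type} [(L k).Structure M] (hM : M ⊨ Tgen n k) {β : Type} [Finite β]
    (ψ : (L k).Formula β) (h : ∀ x : β → Gen n k, ψ.Realize x) (x : β → M) : ψ.Realize x := by
  let σ : (L k).Sentence := (ψ.relabel (Sum.inr : β → Empty ⊕ β)).iAlls β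
  have hσ : ∀ (W : Type) [(L k).Structure W], W ⊨ σ ↔ ∀ x : β → W, ψ.Realize x := by
    intro W _
    rw [Sentence.Realize]
    simp only [σ]
    rw [Formula.realize_iAlls]
    simp only [Formula.realize_relabel]
    rfl
  have h1 : σ ∈ Tgen n k := (hσ (Gen n k)).2 h
  exact (hσ M).1 (hM.realize_of_mem σ h1) x

/-- one more point over the finite set `s` -/
noncomputable def extF {k : ℕ} {α : Type} (s : Finset α) (F : Finset α → Prop) :
    (L k).Formula (α ⊕ Unit) :=
  (Formula.iInf fun a : s => ∼(Term.equal (Term.var (Sum.inr ())) (Term.var (Sum.inl (a : α))))) ⊓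
    (Formula.iInf fun t : Fin k → s =>
      if Function.Injective t ∧ F (Finset.univ.image fun j => (t j : α)) then
        relF (Fin.cons (Sum.inr ()) fun j => Sum.inl (t j : α))
      else ∼(relF (Fin.cons (Sum.inr ()) fun j => Sum.inl (t j : α))))

theorem realize_extF {n k : ℕ} {α W : Type} [(L k).Structure W] (hW : IsHyp n k W) (s : Finset α)
    (F : Finset α → Prop) (v : α → W) (b : W) :
    (extF (k := k) s F).Realize (Sum.elim v fun _ => b) ↔ b ∉ s.image v ∧
      ∀ S ⊆ s, S.card = k → (E (k := k) (insert b (S.image v)) ↔ F S) := by
  have hψ : (extF (k := k) s F).Realize (Sum.elim v fun _ => b) ↔ (∀ a ∈ s, b ≠ v a) ∧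
        ∀ t : Fin k → s, R (Fin.cons b (fun j => v (t j)) : Fin (k + 1) → W) ↔
          (Function.Injective t ∧ F (Finset.univ.image fun j => (t j : α))) := by
    unfold extF
    rw [Formula.realize_inf, Formula.realize_iInf, Formula.realize_iInf]
    refine and_congr ?_ (forall_congr' fun t => ?_)
    · constructor
      · intro h1 a ha
        simpa using h1 ⟨a, ha⟩
      · intro h1 a
        simpa using h1 a a.2
    · have h3 : (fun j => (Sum.elim v (fun _ : Unit => b) : α ⊕ Unit → W)
          ((Fin.cons (Sum.inr ()) (fun j => Sum.inl (t j : α)) : Fin (k + 1) → α ⊕ Unit) j)) =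
          (Fin.cons b (fun j => v (t j)) : Fin (k + 1) → W) := by
        funext j
        refine Fin.cases ?_ (fun j => ?_) j <;> simp
      split_ifs with h2
      · rw [realize_relF, h3]
        exact ⟨fun h => ⟨fun _ => h2, fun _ => h⟩, fun h => h.2 h2⟩
      · rw [Formula.realize_not, realize_relF, h3]
        exact ⟨fun h => ⟨fun h' => absurd h' h, fun h' => absurd h' h2⟩, fun h h' => h2 (h.1 h')⟩
  rw [hψ]
  have hbs : (∀ a ∈ s, b ≠ v a) ↔ b ∉ s.image v := by
    constructor
    · intro h hb
      obtain ⟨a, ha, hab⟩ := mem_image.1 hb
      exact h a ha hab.symm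
    · intro h a ha hab
      exact h (mem_image.2 ⟨a, ha, hab.symm⟩)
  rw [← hbs]
  refine and_congr_right fun hb => ?_
  have hR : ∀ t : Fin k → s, R (Fin.cons b (fun j => v (t j)) : Fin (k + 1) → W) ↔
      E (k := k) (insert b ((Finset.univ.image fun j => (t j : α)).image v)) := by
    intro t
    rw [R_iffE hW, image_cons, image_image]
    rfl
  have hinj : ∀ t : Fin k → s, E (k := k) (insert b ((Finset.univ.image fun j => (t j : α)).image v)) →
      Function.Injective t := by
    intro t h
    have h1 := E_card hW h
    rw [card_insert_of_notMem] at h1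
    · have h2 : (Finset.univ.image fun j => (t j : α)).card = k := by
        apply le_antisymm
        · exact card_image_le.trans (by simp)
        · have h3 : ((Finset.univ.image fun j => (t j : α)).image v).card ≤
            (Finset.univ.image fun j => (t j : α)).card := card_image_le
          omega
      have h3 : Function.Injective fun j => (t j : α) := inj_of_card (by simp) h2
      intro a b hab
      exact h3 (by simp [hab])
    · intro h2
      obtain ⟨a, ha, hab⟩ := mem_image.1 h2
      obtain ⟨j, -, rfl⟩ := mem_image.1 ha
      exact hb _ (t j).2 hab.symm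
  constructor
  · intro h S hS hSk
    obtain ⟨x, hx, hxS⟩ := exists_enum hSk
    have hxs : ∀ j, x j ∈ s := fun j => hS (by rw [← hxS]; exact mem_image_of_mem x (mem_univ j))
    have h5 := h (fun j => ⟨x j, hxs j⟩)
    have h6 : Function.Injective (fun j => (⟨x j, hxs j⟩ : s)) :=
      fun a b hab => hx (by simpa using hab)
    rw [hR] at h5
    simp only [hxS, h6, true_and] at h5
    exact h5
  · intro h t
    rw [hR]
    constructor
    · intro h1
      have h2 := hinj t h1
      refine ⟨h2, (h _ ?_ ?_).1 h1⟩
      · intro a ha
        obtain ⟨j, -, rfl⟩ := mem_image.1 ha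
        exact (t j).2
      · rw [card_image_of_injective _ (show Function.Injective (fun j => (t j : α)) from
          fun a b hab => h2 (Subtype.ext hab))]
        simp
    · rintro ⟨h2, h3⟩
      refine (h _ ?_ ?_).2 h3
      · intro a ha
        obtain ⟨j, -, rfl⟩ := mem_image.1 ha
        exact (t j).2
      · rw [card_image_of_injective _ (show Function.Injective (fun j => (t j : α)) from
          fun a b hab => h2 (Subtype.ext hab))]
        simp

/-- the diagram of a finite hypergraph -/
noncomputable def diagF {k : ℕ} {α : Type} [Finite α] (C : Finset α → Prop) :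
    (L k).Formula α :=
  have := Fintype.ofFinite α
  (Formula.iInf fun p : {p : α × α // p.1 ≠ p.2} =>
    ∼(Term.equal (Term.var p.1.1) (Term.var p.1.2))) ⊓
    (Formula.iInf fun t : {t : Fin (k + 1) → α // Function.Injective t} =>
      if C (Finset.univ.image t.1) then relF t.1 else ∼(relF t.1))

theorem realize_diagF {n k : ℕ} {α W : Type} [Finite α] [(L k).Structure W] (hW : IsHyp n k W)
    (C : Finset α → Prop) (v : α → W) :
    (diagF (k := k) C).Realize v ↔ Function.Injective v ∧
      ∀ S : Finset α, S.card = k + 1 → (E (k := k) (S.image v) ↔ C S) := by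
  unfold diagF
  rw [Formula.realize_inf, Formula.realize_iInf, Formula.realize_iInf]
  have h1 : (∀ p : {p : α × α // p.1 ≠ p.2},
      Formula.Realize (∼(Term.equal (L := L k) (Term.var p.1.1) (Term.var p.1.2))) v) ↔
      Function.Injective v := by
    constructor
    · intro h a b hab
      by_contra hne
      have := h ⟨(a, b), hne⟩
      simp at this
      exact this hab
    · intro h p
      simp only [Formula.realize_not, Formula.realize_equal, Term.realize_var]
      intro hp
      exact p.2 (h hp)
  rw [h1]
  refine and_congr_right fun hv => ?_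
  constructor
  · intro h S hS
    obtain ⟨t, ht, rfl⟩ := exists_enum hS
    have h2 := h ⟨t, ht⟩
    have h3 : E (k := k) ((Finset.univ.image t).image v) ↔ R (k := k) (fun j => v (t j)) := by
      rw [R_iffE hW, image_image]; rfl
    rw [h3]
    split_ifs at h2 with h4
    · rw [realize_relF] at h2
      exact ⟨fun _ => h4, fun _ => h2⟩
    · rw [Formula.realize_not, realize_relF] at h2
      exact ⟨fun h => absurd h h2, fun h => absurd h h4⟩
  · intro h t
    have h3 : E (k := k) ((Finset.univ.image t.1).image v) ↔ R (k := k) (fun j => v (t.1 j)) := by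
      rw [R_iffE hW, image_image]; rfl
    have h2 := h (Finset.univ.image t.1) (by rw [card_image_of_injective _ t.2]; simp)
    rw [h3] at h2
    split_ifs with h4
    · rw [realize_relF]
      exact h2.2 h4
    · rw [Formula.realize_not, realize_relF]
      exact fun h => h4 (h2.1 h)

theorem isHyp_of_gen {n k : ℕ} (hkn : k < n) {M : Type} [(L k).Structure M] (hM : M ⊨ Tgen n k) :
    IsHyp n k M := by
  have hG := gen_isHyp hkn
  refine ⟨fun x σ hx => ?_, fun x hx => ?_, ?_⟩
  · have h1 := transfer hM ((relF (k := k) (id : Fin (k + 1) → Fin (k + 1))).imp (relF σ)) (by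
      intro x
      rw [Formula.realize_imp, realize_relF, realize_relF]
      exact fun h => hG.symm _ σ h) x
    rw [Formula.realize_imp, realize_relF, realize_relF] at h1
    exact h1 hx
  · intro i j hij
    by_contra hne
    have h1 := transfer hM ((relF (k := k) (id : Fin (k + 1) → Fin (k + 1))).imp
      (∼(Term.equal (Term.var i) (Term.var j)))) (by
      intro x
      rw [Formula.realize_imp, realize_relF, Formula.realize_not, Formula.realize_equal]
      exact fun h he => hne (hG.irrefl _ h he)) x
    rw [Formula.realize_imp, realize_relF, Formula.realize_not, Formula.realize_equal] at h1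
    exact h1 hx hij
  · rintro ⟨y, hy, hR⟩
    have h1 := transfer hM (∼((Formula.iInf fun p : {p : Fin (n + 1) × Fin (n + 1) // p.1 ≠ p.2} =>
      ∼(Term.equal (L := L k) (Term.var p.1.1) (Term.var p.1.2))) ⊓
      (Formula.iInf fun e : {e : Fin (k + 1) → Fin (n + 1) // Function.Injective e} =>
        relF (k := k) e.1))) (by
      intro x
      rw [Formula.realize_not, Formula.realize_inf, Formula.realize_iInf, Formula.realize_iInf]
      rintro ⟨h1, h2⟩
      refine hG.free ⟨x, ?_, fun e he => ?_⟩
      · intro a b hab
        by_contra hne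
        have := h1 ⟨(a, b), hne⟩
        rw [Formula.realize_not, Formula.realize_equal] at this
        exact this hab
      · have := h2 ⟨e, he⟩
        rw [realize_relF] at this
        exact this) y
    rw [Formula.realize_not, Formula.realize_inf, Formula.realize_iInf, Formula.realize_iInf] at h1
    refine h1 ⟨fun p => ?_, fun e => ?_⟩
    · rw [Formula.realize_not, Formula.realize_equal]
      exact fun h => p.2 (hy h)
    · rw [realize_relF]
      exact hR e.1 e.2

theorem ext_of_gen {n k : ℕ} (hk : 1 ≤ k) (hkn : k < n) {M : Type} [(L k).Structure M]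
    (hM : M ⊨ Tgen n k) : Ext n k (E (k := k) (M := M)) := by
  have hG := gen_isHyp hkn
  have hH := isHyp_of_gen hkn hM
  intro s F h
  obtain ⟨x, hx, hxs⟩ := exists_enum (V := M) (S := s) rfl
  have hxsub : ∀ K : Finset (Fin s.card), K.image x ⊆ s := by
    intro K v hv
    obtain ⟨j, -, rfl⟩ := mem_image.1 hv
    have h0 := mem_image_of_mem x (mem_univ j)
    rwa [hxs] at h0
  let C : Finset (Fin s.card) → Prop := fun S => E (k := k) (S.image x)
  let F₀ : Finset (Fin s.card) → Prop := fun S => F (S.image x)
  have h1 := transfer hM ((diagF (k := k) C).imp ((extF Finset.univ F₀).iExs Unit)) (by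
    intro x₀
    rw [Formula.realize_imp, realize_diagF hG]
    rintro ⟨hx₀, hd⟩
    rw [Formula.realize_iExs]
    obtain ⟨b, hb, hbE⟩ := gen_ext hk hkn (Finset.univ.image x₀)
      (fun S' => F₀ (Finset.univ.filter fun j => x₀ j ∈ S')) (by
        intro K' hK' hn hc
        set K := Finset.univ.filter fun j => x₀ j ∈ K' with hKdef
        have hKim : K.image x₀ = K' := image_filter hK'
        have hKcard : K.card = n := by rw [← hn, ← hKim, card_image_of_injective _ hx₀]
        obtain ⟨S₁, hS₁, hS₁k, hS₁F⟩ := h (K.image x) (hxsub K)
          (by rw [card_image_of_injective _ hx, hKcard]) (by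
            intro W hW hWk
            have h2 := image_filter hW
            have h3 : (K.filter fun v => x v ∈ W).card = k + 1 := by
              have h4 := congrArg Finset.card h2
              rw [card_image_of_injective _ hx, hWk] at h4
              exact h4
            rw [← h2]
            change C _
            rw [← hd _ h3]
            apply hc
            · rw [← hKim]; exact image_subset_image (filter_subset _ _)
            · rw [card_image_of_injective _ hx₀, h3])
        have h2 := image_filter hS₁
        have h3 : (K.filter fun v => x v ∈ S₁).card = k := by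
          have h4 := congrArg Finset.card h2
          rw [card_image_of_injective _ hx, hS₁k] at h4
          exact h4
        refine ⟨(K.filter fun v => x v ∈ S₁).image x₀, ?_, ?_, ?_⟩
        · rw [← hKim]; exact image_subset_image (filter_subset _ _)
        · rw [card_image_of_injective _ hx₀, h3]
        · have h5 := filter_image (s := Finset.univ) hx₀.injOn (subset_univ (K.filter fun v => x v ∈ S₁))
          simp only [h5]
          change ¬ F _
          rw [h2]
          exact hS₁F)
    refine ⟨fun _ => b, ?_⟩
    have h6 := (realize_extF hG Finset.univ F₀ x₀ b).2 ⟨hb, ?_⟩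
    · exact h6
    · intro S hS hSk
      rw [hbE _ (image_subset_image hS) (by rw [card_image_of_injective _ hx₀, hSk])]
      rw [filter_image (s := Finset.univ) hx₀.injOn hS]) x
  rw [Formula.realize_imp, realize_diagF hH, Formula.realize_iExs] at h1
  obtain ⟨b, hb⟩ := h1 ⟨hx, fun S _ => Iff.rfl⟩
  have h2 := (realize_extF hH Finset.univ F₀ x (b ())).1 hb
  rw [hxs] at h2
  refine ⟨b (), h2.1, fun S hS hSk => ?_⟩
  have h3 : (Finset.univ.filter fun j => x j ∈ S).image x = S := image_filter (by rw [hxs]; exact hS)
  have h4 := h2.2 (Finset.univ.filter fun j => x j ∈ S) (subset_univ _) (by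
    have h5 := congrArg Finset.card h3
    rw [card_image_of_injective _ hx, hSk] at h5
    exact h5)
  rw [h3] at h4
  rw [h4]
  change F _ ↔ F S
  rw [h3]

end Pool.Agent.U638.KO
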